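import Pool.Agent.Lib.MP_63c928_gt.SY.Defs

/-! Local to global: a level function for a systolic graph, through a layered cover. -/

namespace Pool.Agent.Lib.MP_63c928_gt.SY

variable {V : Type} {G : SimpleGraph V}

variable (G) in
/-- Equal or adjacent. -/
def Q (x y : V) : Prop := x = y ∨ G.Adj x y

lemma Q.rf (x : V) : Q G x x := Or.inl rfl

lemma Q.sy {x y : V} (h : Q G x y) : Q G y x := h.imp Eq.symm G.adj_symm

lemma Q.adj {x y z : V} (h : Q G x y) (h1 : Q G y z) (h2 : ¬ Q G x z) : G.Adj x y :=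
  h.resolve_left (by rintro rfl; exact h2 h1)

lemma emb {n : ℕ} {v : V} (c : Fin n → V) (h0 : ∀ i, G.Adj v (c i))
    (h1 : ∀ i j, (SimpleGraph.cycleGraph n).Adj i j → G.Adj (c i) (c j))
    (h2 : ∀ i j, i ≠ j → ¬ (SimpleGraph.cycleGraph n).Adj i j → ¬ Q G (c i) (c j)) :
    (SimpleGraph.cycleGraph n).IsIndContained (G.induce (G.neighborSet v)) :=
  ⟨⟨⟨fun i => ⟨c i, h0 i⟩, fun i j h => by
      by_contra hij
      have h : c i = c j := congrArg Subtype.val h
      by_cases ha : (SimpleGraph.cycleGraph n).Adj i j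
      · exact (h1 i j ha).ne h
      · exact h2 i j hij ha (Or.inl h)⟩, fun {i j} => ⟨fun h => by
      have h : G.Adj (c i) (c j) := h
      by_contra ha
      exact h2 i j (by rintro rfl; exact h.ne rfl) ha (Or.inr h), h1 i j⟩⟩⟩

lemma IsSystolic.p4 (hG : IsSystolic G) {v a b c e : V} (ha : Q G a v) (hb : Q G b v)
    (hc : Q G c v) (he : Q G e v) (h1 : Q G a b) (h2 : Q G b c) (h3 : Q G c e) (h4 : Q G e a) :
    Q G a c ∨ Q G b e := by
  by_contra hn
  obtain ⟨n1, n2⟩ := not_or.1 hn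
  have n3 : ¬ Q G c a := fun h => n1 h.sy
  have n4 : ¬ Q G e b := fun h => n2 h.sy
  have a1 := h1.adj h2 n1; have a2 := h2.adj h3 n2; have a3 := h3.adj h4 n3
  have a4 := h4.adj h1 n4
  have b1 := a1.symm; have b2 := a2.symm; have b3 := a3.symm; have b4 := a4.symm
  have c1 := (ha.adj hc.sy n1).symm; have c2 := (hb.adj he.sy n2).symm
  have c3 := (hc.adj ha.sy n3).symm; have c4 := (he.adj hb.sy n4).symm
  refine hG.large v 4 (Or.inl rfl) (emb ![a, b, c, e] (fun i => ?_) (fun i j h => ?_)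
    fun i j h h' => ?_)
  · fin_cases i <;> assumption
  · fin_cases i <;> fin_cases j <;> first | assumption | exact absurd h (by decide)
  · fin_cases i <;> fin_cases j <;>
      first | assumption | exact absurd rfl h | exact absurd (by decide) h'

lemma IsSystolic.p5 (hG : IsSystolic G) {v a b c e f : V} (ha : Q G a v) (hb : Q G b v)
    (hc : Q G c v) (he : Q G e v) (hf : Q G f v) (h1 : Q G a b) (h2 : Q G b c) (h3 : Q G c e)
    (h4 : Q G e f) (h5 : Q G f a) : (Q G a c ∧ Q G a e) ∨ (Q G b e ∧ Q G b f) ∨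
      (Q G c f ∧ Q G c a) ∨ (Q G e a ∧ Q G e b) ∨ (Q G f b ∧ Q G f c) := by
  by_cases n1 : Q G a c
  · have := n1.sy; have := hG.p4 ha hc he hf n1 h3 h4 h5; tauto
  by_cases n2 : Q G b e
  · have := n2.sy; have := (hG.p4 hb he hf ha n2 h4 h5 h1); tauto
  by_cases n3 : Q G c f
  · have := n3.sy; have := (hG.p4 hc hf ha hb n3 h5 h1 h2); tauto
  by_cases n4 : Q G e a
  · have := n4.sy; have := (hG.p4 he ha hb hc n4 h1 h2 h3); tauto
  by_cases n5 : Q G f b
  · have := n5.sy; have := (hG.p4 hf hb hc he n5 h2 h3 h4); tauto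
  have m1 : ¬ Q G c a := fun h => n1 h.sy
  have m2 : ¬ Q G e b := fun h => n2 h.sy
  have m3 : ¬ Q G f c := fun h => n3 h.sy
  have m4 : ¬ Q G a e := fun h => n4 h.sy
  have m5 : ¬ Q G b f := fun h => n5 h.sy
  have a1 := h1.adj h2 n1; have a2 := h2.adj h3 n2; have a3 := h3.adj h4 n3
  have a4 := h4.adj h5 n4; have a5 := h5.adj h1 n5
  have b1 := a1.symm; have b2 := a2.symm; have b3 := a3.symm; have b4 := a4.symm
  have b5 := a5.symm
  have c1 := (ha.adj hc.sy n1).symm; have c2 := (hb.adj he.sy n2).symm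
  have c3 := (hc.adj hf.sy n3).symm; have c4 := (he.adj ha.sy n4).symm
  have c5 := (hf.adj hb.sy n5).symm
  refine (hG.large v 5 (Or.inr rfl) (emb ![a, b, c, e, f] (fun i => ?_) (fun i j h => ?_)
    fun i j h h' => ?_)).elim
  · fin_cases i <;> assumption
  · fin_cases i <;> fin_cases j <;> first | assumption | exact absurd h (by decide)
  · fin_cases i <;> fin_cases j <;>
      first | assumption | exact absurd rfl h | exact absurd (by decide) h'

variable (G) in
/-- The invariants of the ball of radius `k` in the cover. -/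
structure Inv (o : V) (k : ℕ∞) (N : List V → List V → Prop) : Prop where
  sy : ∀ {x y}, N x y → N y x
  rf : ∀ {x y}, N x y → N x x
  a : ∀ {x y}, N x y → Q G (x.headD o) (y.headD o)
  le : ∀ {x y}, N x y → x.length ≤ k
  lv : ∀ {x y}, N x y → x.length ≤ y.length + 1
  eq : ∀ {x y}, N x y → x.headD o = y.headD o → x.length = y.length
  b : ∀ {x y z}, N x y → N x z → Q G (y.headD o) (z.headD o) → N y z
  c : ∀ {x z}, N x x → x.length < k → Q G z (x.headD o) → ∃ y, N x y ∧ y.headD o = z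
  d : ∀ {x y}, N x y → x.length = y.length → 0 < x.length →
    ∃ a, N x a ∧ N y a ∧ a.length + 1 = x.length
  e : ∀ {x y z}, N x y → N x z → y.length + 1 = x.length → z.length + 1 = x.length → N y z
  z : N [] []

section Step

variable (G) (o : V) (k : ℕ) (N : List V → List V → Prop)

/-- `z` is a neighbour not yet lifted at `x`. -/
def Fr (x : List V) (z : V) : Prop :=
  N x x ∧ x.length = k ∧ Q G z (x.headD o) ∧ ∀ u, N x u → u.headD o ≠ z

/-- `y` is below the new vertex `w`. -/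
def Dn (w y : List V) : Prop :=
  ∃ z x, w = z :: x ∧ Fr G o k N x z ∧ Fr G o k N y z ∧ N x y

/-- The next ball. -/
def Nx (x y : List V) : Prop := N x y ∨ Dn G o k N x y ∨ Dn G o k N y x ∨
  (Q G (x.headD o) (y.headD o) ∧ ∃ u, Dn G o k N x u ∧ Dn G o k N y u)

variable {G o k N} (hG : IsSystolic G) (I : Inv G o k N)
include I

lemma Inv.k1 {x a : List V} {z : V} (h : Fr G o k N x z) (ha : N x a) (hl : a.length < k) :
    ¬ Q G z (a.headD o) := fun hz => by
  obtain ⟨y, y1, rfl⟩ := I.c (I.rf (I.sy ha)) (by exact_mod_cast hl) hz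
  exact h.2.2.2 y (I.b (I.sy ha) y1 h.2.2.1.sy) rfl

lemma Inv.fr {x y : List V} {z : V} (h : Fr G o k N x z) (hy : N x y)
    (hz : Q G z (y.headD o)) : Fr G o k N y z := by
  refine ⟨I.rf (I.sy hy), ?_, hz, fun u hu e => ?_⟩
  · by_contra hl
    have : y.length ≤ k := by exact_mod_cast I.le (I.sy hy)
    exact I.k1 h hy (by omega) hz
  · exact h.2.2.2 u (I.b (I.sy hy) hu (e ▸ h.2.2.1.sy)) e

include hG

lemma Inv.tr {x y w : List V} {z : V} (hx : Fr G o k N x z) (hy : Fr G o k N y z)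
    (hw : Fr G o k N w z) (h1 : N y x) (h2 : N y w) : N x w := by
  have l1 := hx.2.1; have l2 := hy.2.1; have l3 := hw.2.1
  by_cases h0 : y.length = 0
  · obtain rfl : x = w := by
      rw [List.length_eq_zero_iff.1 (show x.length = 0 by omega),
        List.length_eq_zero_iff.1 (show w.length = 0 by omega)]
    exact hx.1
  obtain ⟨a, a1, a2, a3⟩ := I.d h1 (by omega) (by omega)
  obtain ⟨b, b1, b2, b3⟩ := I.d h2 (by omega) (by omega)
  have n1 := I.k1 hy a1 (by omega)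
  have n2 := I.k1 hy b1 (by omega)
  rcases hG.p5 hy.2.2.1 (I.a h1).sy (I.a a1).sy (I.a b1).sy (I.a h2).sy hx.2.2.1 (I.a a2)
    (I.a (I.e a1 b1 a3 b3)) (I.a b2).sy hw.2.2.1.sy with h | h | h | h | h
  · exact absurd h.1 n1
  · exact I.b h1 h2 h.2
  · exact absurd h.2.sy n1
  · exact absurd h.1.sy n2
  · exact I.b h1 h2 h.1.sy

omit hG I in
lemma Dn.fr {w y : List V} (h : Dn G o k N w y) :
    Fr G o k N y (w.headD o) ∧ w.length = k + 1 ∧ y.length = k := by
  obtain ⟨z, x, rfl, h1, h2, -⟩ := h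
  exact ⟨h2, by simp [h1.2.1], h2.2.1⟩

lemma Inv.dd {w x y : List V} (h1 : Dn G o k N w x) (h2 : Dn G o k N w y) : N x y := by
  obtain ⟨z, u, rfl, a1, a2, a3⟩ := h1
  obtain ⟨z', u', e, b1, b2, b3⟩ := h2
  obtain ⟨rfl, rfl⟩ := List.cons.inj e
  exact I.tr hG a2 a1 b2 a3 b3

lemma Inv.dn {w x y : List V} (h1 : Dn G o k N w x) (h2 : N x y)
    (h3 : Q G (w.headD o) (y.headD o)) : Dn G o k N w y := by
  obtain ⟨z, u, rfl, a1, a2, a3⟩ := h1
  have := I.fr a2 h2 h3
  exact ⟨z, u, rfl, a1, this, I.tr hG a1 a2 this (I.sy a3) h2⟩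

lemma Inv.step : Inv G o (k + 1 : ℕ) (Nx G o k N) := by
  have le : ∀ {x y}, N x y → x.length ≤ k ∧ y.length ≤ k := fun h =>
    ⟨by exact_mod_cast I.le h, by exact_mod_cast I.le (I.sy h)⟩
  refine ⟨?_, ?_, ?_, ?_, ?_, ?_, ?_, ?_, ?_, ?_, Or.inl I.z⟩
  · rintro x y (h | h | h | ⟨h, u, h1, h2⟩)
    exacts [Or.inl (I.sy h), Or.inr (Or.inr (Or.inl h)), Or.inr (Or.inl h),
      Or.inr (Or.inr (Or.inr ⟨h.sy, u, h2, h1⟩))]
  · rintro x y (h | h | h | ⟨h, u, h1, h2⟩)
    exacts [Or.inl (I.rf h), Or.inr (Or.inr (Or.inr ⟨Q.rf _, y, h, h⟩)), Or.inl h.fr.1.1,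
      Or.inr (Or.inr (Or.inr ⟨Q.rf _, u, h1, h1⟩))]
  · rintro x y (h | h | h | ⟨h, u, h1, h2⟩)
    exacts [I.a h, h.fr.1.2.2.1, h.fr.1.2.2.1.sy, h]
  · rintro x y (h | h | h | ⟨h, u, h1, h2⟩) <;> norm_cast
    · have := le h; omega
    · have := h.fr.2; omega
    · have := h.fr.2; omega
    · have := h1.fr.2; omega
  · rintro x y (h | h | h | ⟨h, u, h1, h2⟩)
    · exact I.lv h
    · have := h.fr.2; omega
    · have := h.fr.2; omega
    · have := h1.fr.2; have := h2.fr.2; omega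
  · rintro x y (h | h | h | ⟨h, u, h1, h2⟩) e
    · exact I.eq h e
    · exact absurd e.symm (h.fr.1.2.2.2 y h.fr.1.1)
    · exact absurd e (h.fr.1.2.2.2 x h.fr.1.1)
    · have := h1.fr.2; have := h2.fr.2; omega
  · rintro x y z (h | h | h | ⟨h, u, h1, h2⟩) (g | g | g | ⟨g, v, g1, g2⟩) q
    · exact Or.inl (I.b h g q)
    · have := le h; have := g.fr.2; omega
    · exact Or.inr (Or.inr (Or.inl (I.dn hG g h q.sy)))
    · have := le h; have := g1.fr.2; omega
    · have := le g; have := h.fr.2; omega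
    · exact Or.inl (I.dd hG h g)
    · have := g.fr.2; have := h.fr.2; omega
    · exact Or.inr (Or.inr (Or.inl (I.dn hG g2 (I.dd hG g1 h) q.sy)))
    · exact Or.inr (Or.inl (I.dn hG h g q))
    · have := g.fr.2; have := h.fr.2; omega
    · exact Or.inr (Or.inr (Or.inr ⟨q, x, h, g⟩))
    · have := g1.fr.2; have := h.fr.2; omega
    · have := le g; have := h1.fr.2; omega
    · exact Or.inr (Or.inl (I.dn hG h2 (I.dd hG h1 g) q))
    · have := g.fr.2; have := h1.fr.2; omega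
    · have uv := I.dd hG h1 g1
      rcases hG.p4 h1.fr.1.2.2.1.sy g1.fr.1.2.2.1.sy g.sy h.sy (I.a uv) g2.fr.1.2.2.1.sy q.sy
        h2.fr.1.2.2.1 with r | r
      · exact Or.inr (Or.inr (Or.inr ⟨q, u, h2, I.dn hG g2 (I.sy uv) r.sy⟩))
      · exact Or.inr (Or.inr (Or.inr ⟨q, v, I.dn hG h2 uv r.sy, g2⟩))
  · intro x z h hl q
    have hl : x.length < k + 1 := by exact_mod_cast hl
    have h : N x x := by
      rcases h with h | h | h | ⟨h, u, h1, h2⟩
      · exact h
      · have := h.fr.2; omega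
      · have := h.fr.2; omega
      · have := h1.fr.2; omega
    by_cases h1 : ∃ y, N x y ∧ y.headD o = z
    · exact h1.imp fun y hy => ⟨Or.inl hy.1, hy.2⟩
    have h2 : x.length = k := by
      by_contra h2
      exact h1 (I.c h (by exact_mod_cast (by omega)) q)
    have h3 : Fr G o k N x z := ⟨h, h2, q, fun u hu e => h1 ⟨u, hu, e⟩⟩
    exact ⟨z :: x, Or.inr (Or.inr (Or.inl ⟨z, x, rfl, h3, h3, h⟩)), rfl⟩
  · rintro x y (h | h | h | ⟨h, u, h1, h2⟩) e h0
    · obtain ⟨a, a1, a2, a3⟩ := I.d h e h0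
      exact ⟨a, Or.inl a1, Or.inl a2, a3⟩
    · have := h.fr.2; omega
    · have := h.fr.2; omega
    · exact ⟨u, Or.inr (Or.inl h1), Or.inr (Or.inl h2), by have := h1.fr.2; omega⟩
  · rintro x y z (h | h | h | ⟨h, u, h1, h2⟩) (g | g | g | ⟨g, v, g1, g2⟩) e e'
    · exact Or.inl (I.e h g e e')
    · have := le h; have := g.fr.2; omega
    · have := g.fr.2; omega
    · have := g1.fr.2; have := g2.fr.2; omega
    · have := le g; have := h.fr.2; omega
    · exact Or.inl (I.dd hG h g)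
    · have := g.fr.2; omega
    · have := g1.fr.2; have := g2.fr.2; omega
    all_goals first
      | (have := h.fr.2; omega)
      | (have := h1.fr.2; have := h2.fr.2; omega)

end Step

variable (G) in
/-- The balls of the cover. -/
def St (o : V) : ℕ → List V → List V → Prop
  | 0 => fun x y => x = [] ∧ y = []
  | k + 1 => Nx G o k (St o k)

lemma inv_St (hG : IsSystolic G) (o : V) : ∀ k : ℕ, Inv G o k (St G o k)
  | 0 => by
    refine ⟨?_, ?_, ?_, ?_, ?_, ?_, ?_, ?_, ?_, ?_, ⟨rfl, rfl⟩⟩ <;>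
      simp +contextual [St, Q.rf]
  | k + 1 => (inv_St hG o k).step hG

lemma St_mono (o : V) {k l : ℕ} (h : k ≤ l) {x y : List V} (h1 : St G o k x y) : St G o l x y := by
  induction l, h using Nat.le_induction with
  | base => exact h1
  | succ l _ ih => exact Or.inl ih

lemma exInv (hG : IsSystolic G) (o : V) : ∃ N, Inv G o ⊤ N := by
  have I := inv_St hG o
  refine ⟨fun x y => ∃ k, St G o k x y, fun ⟨k, h⟩ => ⟨k, (I k).sy h⟩,
    fun ⟨k, h⟩ => ⟨k, (I k).rf h⟩, fun ⟨k, h⟩ => (I k).a h, fun _ => le_top,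
    fun ⟨k, h⟩ => (I k).lv h, fun ⟨k, h⟩ => (I k).eq h, fun ⟨k, h⟩ ⟨l, g⟩ q =>
      ⟨k + l, (I _).b (St_mono o (by omega) h) (St_mono o (by omega) g) q⟩,
    fun {x z} ⟨k, h⟩ _ q => ?_, fun ⟨k, h⟩ e h0 => ?_, fun ⟨k, h⟩ ⟨l, g⟩ =>
      fun e e' => ⟨k + l, (I _).e (St_mono o (by omega) h) (St_mono o (by omega) g) e e'⟩,
    ⟨0, rfl, rfl⟩⟩
  · obtain ⟨y, h1, h2⟩ := (I (k + x.length + 1)).c (St_mono o (by omega) h)
      (by exact_mod_cast (by omega)) q
    exact ⟨y, ⟨_, h1⟩, h2⟩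
  · obtain ⟨a, h1, h2, h3⟩ := (I k).d h e h0
    exact ⟨a, ⟨k, h1⟩, ⟨k, h2⟩, h3⟩

end Pool.Agent.Lib.MP_63c928_gt.SY
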