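import Mathlib

/-! Systolic graphs and convex geodesic bicombings: definitions. -/

namespace Pool.Agent.Lib.MP_63c928_gt.SY

/-- Combinatorial homotopy of edge paths in the clique complex of `G`, with fixed endpoints:
generated by cancelling a backtrack and by crossing a triangle, anywhere in the path. -/
inductive EdgeHomotopic {V : Type} (G : SimpleGraph V) :
    ∀ {u v : V}, G.Walk u v → G.Walk u v → Prop
  | back {u v w : V} (h : G.Adj u v) (p : G.Walk u w) :
      EdgeHomotopic G (.cons h (.cons h.symm p)) p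
  | tri {a b c w : V} (h1 : G.Adj a b) (h2 : G.Adj b c) (h3 : G.Adj a c) (p : G.Walk c w) :
      EdgeHomotopic G (.cons h1 (.cons h2 p)) (.cons h3 p)
  | cons {u v w : V} (h : G.Adj u v) {p q : G.Walk v w} :
      EdgeHomotopic G p q → EdgeHomotopic G (.cons h p) (.cons h q)
  | refl {u v : V} (p : G.Walk u v) : EdgeHomotopic G p p
  | symm {u v : V} {p q : G.Walk u v} : EdgeHomotopic G p q → EdgeHomotopic G q p
  | trans {u v : V} {p q r : G.Walk u v} :
      EdgeHomotopic G p q → EdgeHomotopic G q r → EdgeHomotopic G p r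

/-- The clique complex of `G` is systolic: connected, simply connected, and links of vertices
are `6`-large (no induced cycle of length `4` or `5`). -/
structure IsSystolic {V : Type} (G : SimpleGraph V) : Prop where
  connected : G.Connected
  simplyConnected : ∀ (v : V) (p : G.Walk v v), EdgeHomotopic G p .nil
  large : ∀ (v : V) (n : ℕ), n = 4 ∨ n = 5 →
    ¬ (SimpleGraph.cycleGraph n).IsIndContained (G.induce (G.neighborSet v))

/-- A convex geodesic bicombing. -/
structure IsConvexBicombing {Y : Type} [MetricSpace Y] (σ : Y → Y → ℝ → Y) : Prop where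
  source : ∀ x y, σ x y 0 = x
  target : ∀ x y, σ x y 1 = y
  geodesic : ∀ x y, ∀ s ∈ Set.Icc (0 : ℝ) 1, ∀ t ∈ Set.Icc (0 : ℝ) 1,
    dist (σ x y s) (σ x y t) = |s - t| * dist x y
  convex : ∀ x y x' y', ConvexOn ℝ (Set.Icc 0 1) fun t => dist (σ x y t) (σ x' y' t)

/-- `Y` with the bicombing `σ` is an equivariant model for the graph `G`. -/
structure IsModel (Γ : Type) {V Y : Type} [Group Γ] [MulAction Γ V] [MetricSpace Y]
    [MulAction Γ Y] (G : SimpleGraph V) (ι : V → Y) (σ : Y → Y → ℝ → Y) : Prop where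
  proper : ProperSpace Y
  finiteDim : ∃ n : ℕ, ∀ y : Y, ∃ e : Y → Fin n → ℝ, ∀ p ∈ Metric.closedBall y 1,
    ∀ q ∈ Metric.closedBall y 1, dist (e p) (e q) = dist p q
  isometricAction : ∀ (g : Γ) (x y : Y), dist (g • x) (g • y) = dist x y
  properAction : (∀ v : V, Finite (MulAction.stabilizer Γ v)) →
    ∀ (y : Y) (r : ℝ), {g : Γ | dist (g • y) y ≤ r}.Finite
  cocompact : Finite (MulAction.orbitRel.Quotient Γ V) →
    ∃ K : Set Y, IsCompact K ∧ ∀ y : Y, ∃ g : Γ, g • y ∈ K
  embedding : ∀ v w, dist (ι v) (ι w) = G.dist v w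
  dense : ∀ y, ∃ v, dist y (ι v) ≤ 10
  equivariant : ∀ (g : Γ) v, g • ι v = ι (g • v)
  bicombing : IsConvexBicombing σ
  consistent : ∀ x y, ∀ s ∈ Set.Icc (0 : ℝ) 1, ∀ t ∈ Set.Icc (0 : ℝ) 1, ∀ u ∈ Set.Icc (0 : ℝ) 1,
    σ (σ x y s) (σ x y t) u = σ x y ((1 - u) * s + u * t)
  invariant : ∀ (g : Γ) x y, ∀ t ∈ Set.Icc (0 : ℝ) 1, g • σ x y t = σ (g • x) (g • y) t
  unique : ∀ τ : Y → Y → ℝ → Y, IsConvexBicombing τ →
    ∀ x y, ∀ t ∈ Set.Icc (0 : ℝ) 1, τ x y t = σ x y t

end Pool.Agent.Lib.MP_63c928_gt.SY
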