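import Pool.Agent.Lib.MP_63c928_gt.SY.H3
import Pool.Agent.Lib.MP_63c928_gt.SY.Defs

/-! The sublevel set of the potential and its bicombing. -/

namespace Pool.Agent.Lib.MP_63c928_gt.SY

lemma Cv.convexOn {φ : ℝ → ℝ} (h : Cv φ) : ConvexOn ℝ (Set.Icc 0 1) φ := by
  refine LinearOrder.convexOn_of_lt (convex_Icc 0 1) fun x hx y hy hxy a b ha hb hab => ?_
  obtain rfl : a = 1 - b := by linarith
  have := h x ((1 - b) * x + b * y) y hx.1 (by nlinarith) (by nlinarith) hy.2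
  simp only [smul_eq_mul]
  refine le_of_mul_le_mul_left ?_ (show 0 < y - x by linarith)
  linarith

lemma cv_of_convexOn {φ : ℝ → ℝ} (h : ConvexOn ℝ (Set.Icc 0 1) φ) : Cv φ := by
  intro s t u h0 h1 h2 h3
  rcases (h1.trans h2).eq_or_lt with rfl | hsu
  · obtain rfl := le_antisymm h1 h2
    simp
  have e : 0 < u - s := by linarith
  have := h.2 (show s ∈ Set.Icc (0 : ℝ) 1 from ⟨h0, by linarith⟩)
    (show u ∈ Set.Icc (0 : ℝ) 1 from ⟨by linarith, h3⟩)
    (div_nonneg (show 0 ≤ u - t by linarith) e.le) (div_nonneg (show 0 ≤ t - s by linarith) e.le)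
    (by field_simp; ring)
  simp only [smul_eq_mul] at this
  rw [show (u - t) / (u - s) * s + (t - s) / (u - s) * u = t by field_simp; ring] at this
  exact (mul_le_mul_of_nonneg_left this e.le).trans_eq (by field_simp)

lemma Cv.rep {φ : ℝ → ℝ} (h : Cv φ) {s t : ℝ} (hs : s ∈ Set.Icc (0 : ℝ) 1)
    (ht : t ∈ Set.Icc (0 : ℝ) 1) : Cv fun u => φ ((1 - u) * s + u * t) := by
  refine cv_of_convexOn ⟨convex_Icc 0 1, fun x hx y hy a b ha hb hab => ?_⟩
  have m : ∀ x ∈ Set.Icc (0 : ℝ) 1, (1 - x) * s + x * t ∈ Set.Icc (0 : ℝ) 1 := fun x hx =>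
    convex_Icc (0 : ℝ) 1 hs ht (by linarith [hx.2]) hx.1 (by ring)
  have := h.convexOn.2 (m x hx) (m y hy) ha hb hab
  obtain rfl : a = 1 - b := by linarith
  simp only [smul_eq_mul] at this ⊢
  convert this using 2
  ring

namespace Br

variable {V : Type} {B : Br V} {Γ : Type} [Group Γ] [MulAction Γ V]

lemma LC.smul (hd : ∀ (g : Γ) x y, B.d (g • x) (g • y) = B.d x y) (g : Γ) {x a b c : V}
    (h : B.LC x a b c) : B.LC (g • x) (g • a) (g • b) (g • c) :=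
  ⟨by simpa only [hd] using h.ab, by simpa only [hd] using h.ac, by simpa only [hd] using h.bc,
    fun n hn => by
      obtain ⟨n, rfl⟩ := MulAction.surjective g n
      simpa only [hd] using h.min n (by simpa only [hd] using hn)⟩

/-- The action on the hull. -/
def act (hd : ∀ (g : Γ) x y, B.d (g • x) (g • y) = B.d x y) (g : Γ) (f : B.E) : B.E :=
  ⟨fun x => f.1 (g⁻¹ • x), fun x y => by simpa only [hd] using f.2.1 (g⁻¹ • x) (g⁻¹ • y),
    fun x ε hε => by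
      obtain ⟨y, hy⟩ := f.2.2 (g⁻¹ • x) ε hε
      exact ⟨g • y, by simp only; rwa [← hd g⁻¹, inv_smul_smul]⟩⟩

variable [Nonempty V]

lemma act_dist (hd : ∀ (g : Γ) x y, B.d (g • x) (g • y) = B.d x y) (g : Γ) (f f' : B.E) :
    dist (act hd g f) (act hd g f') = dist f f' :=
  le_antisymm (dist_le fun x => le_dist f f' _) (dist_le fun x => by
    simpa [act] using le_dist (act hd g f) (act hd g f') (g • x))

lemma act_Φ (hd : ∀ (g : Γ) x y, B.d (g • x) (g • y) = B.d x y) (g : Γ) (f : B.E) :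
    Φ (act hd g f) ≤ Φ f :=
  Φ_le (le_Φ f) fun x a b c h => by simpa only [val, hd, act] using val_le_Φ f (h.smul hd g⁻¹)

theorem main (hd : ∀ (g : Γ) x y, B.d (g • x) (g • y) = B.d x y) :
    ∃ (Y : Type) (_ : MetricSpace Y) (ι : V → Y) (ρ : Γ →* (Y ≃ᵢ Y)) (σ : Y → Y → ℝ → Y),
      ProperSpace Y ∧
      (∃ n : ℕ, ∀ y : Y, ∃ e : Y → Fin n → ℝ, ∀ p ∈ Metric.closedBall y 1,
        ∀ q ∈ Metric.closedBall y 1, dist (e p) (e q) = dist p q) ∧
      (∀ v w, dist (ι v) (ι w) = B.d v w) ∧ (∀ y, ∃ v, dist y (ι v) ≤ 10) ∧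
      (∀ g v, ρ g (ι v) = ι (g • v)) ∧ IsConvexBicombing σ ∧
      (∀ x y, ∀ s ∈ Set.Icc (0 : ℝ) 1, ∀ t ∈ Set.Icc (0 : ℝ) 1, ∀ u ∈ Set.Icc (0 : ℝ) 1,
        σ (σ x y s) (σ x y t) u = σ x y ((1 - u) * s + u * t)) ∧
      (∀ g x y, ∀ t ∈ Set.Icc (0 : ℝ) 1, ρ g (σ x y t) = σ (ρ g x) (ρ g y) t) ∧
      ∀ τ : Y → Y → ℝ → Y, IsConvexBicombing τ →
        ∀ x y, ∀ t ∈ Set.Icc (0 : ℝ) 1, τ x y t = σ x y t := by
  classical
  obtain ⟨x0⟩ := ‹Nonempty V›
  let Y := {f : B.E // Φ f ≤ 20}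
  have nr : ∀ y : Y, ∃ o, y.1.1 o < 10 := fun y =>
    near x0 y.1.2 fun _ _ _ _ h => (val_le_Φ y.1 h).trans y.2
  let ι : V → Y := fun v => ⟨B.pt v, Φ_le le_rfl fun x a b c h => by
    have := val_le (B.pt v).2.1 h v
    simp only [pt, B.refl] at this ⊢
    push_cast at this; linarith⟩
  let t : Γ → Y → Y := fun g y => ⟨act hd g y.1, (act_Φ hd g y.1).trans y.2⟩
  have t1 : ∀ g h y, t g (t h y) = t (g * h) y := fun g h y =>
    Subtype.ext (E.ext (funext fun x => by simp [t, act, mul_smul]))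
  have t2 : ∀ y, t 1 y = y := fun y => Subtype.ext (E.ext (funext fun x => by simp [t, act]))
  let ρ : Γ →* (Y ≃ᵢ Y) := MonoidHom.mk' (fun g => ⟨⟨t g, t g⁻¹, fun y => by simp [t1, t2],
    fun y => by simp [t1, t2]⟩, Isometry.of_dist_eq fun y y' => act_dist hd g y.1 y'.1⟩)
    fun g h => IsometryEquiv.ext fun y => (t1 g h y).symm
  obtain ⟨σ, s0, s1, s2⟩ : ∃ σ : Y → Y → ℝ → Y, (∀ x y, σ x y 0 = x) ∧ (∀ x y, σ x y 1 = y) ∧
      ∀ x y, Str fun t => (σ x y t).1 := by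
    choose γ g0 g1 g2 using exStr (B := B)
    have m := fun x y : Y => (g0 x.1 y.1).Φ_le (by rw [g1]; exact x.2) (by rw [g2]; exact y.2)
    refine ⟨fun x y t => if h : t ∈ Set.Icc (0 : ℝ) 1 then ⟨γ x.1 y.1 t, m x y t h⟩ else x,
      fun x y => by simp [g1], fun x y => by simp [g2], fun x y z s t u h0 h1 h2 h3 => ?_⟩
    have := g0 x.1 y.1 z s t u h0 h1 h2 h3
    have a1 : s ∈ Set.Icc (0 : ℝ) 1 := ⟨h0, by linarith⟩
    have a2 : t ∈ Set.Icc (0 : ℝ) 1 := ⟨by linarith, by linarith⟩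
    have a3 : u ∈ Set.Icc (0 : ℝ) 1 := ⟨by linarith, h3⟩
    simpa only [dif_pos a1, dif_pos a2, dif_pos a3] using this
  have un : ∀ γ : ℝ → Y, (Str fun t => (γ t).1) → ∀ t ∈ Set.Icc (0 : ℝ) 1,
      γ t = σ (γ 0) (γ 1) t := fun γ h t ht =>
    Subtype.ext (h.uniq (s2 _ _) (by simp only [s0]) (by simp only [s1]) ht)
  refine ⟨Y, inferInstance, ι, ρ, σ, ProperSpace.of_isClosed (isClosed_le cont_Φ continuous_const),
    ?_, fun v w => dist_pt _ _, fun y => ?_, fun g v => Subtype.ext (E.ext (funext fun x => ?_)),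
    ⟨s0, s1, fun x y s hs t ht => ?_, fun x y x' y' => ((s2 x y).cv (s2 x' y')).convexOn⟩,
    fun x y s hs t ht u hu => ?_, fun g x y s hs => ?_, fun τ hτ x y t ht => ?_⟩
  · obtain ⟨n, hn⟩ := B.fin x0 11
    refine ⟨n, fun y => ?_⟩
    obtain ⟨o, ho⟩ := nr y
    obtain ⟨s, hs⟩ := hn o
    refine ⟨fun p i => p.1.1 (s i), fun p hp q hq => le_antisymm
      ((dist_pi_le_iff dist_nonneg).2 fun i =>
        abs_le.2 ⟨by have := le_dist' p.1 q.1 (s i); rw [Subtype.dist_eq]; linarith,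
          le_dist p.1 q.1 _⟩) (dist_le fun x => ?_)⟩
    obtain ⟨i, hi⟩ := hs x
    have b : ∀ p ∈ Metric.closedBall y 1, p.1.1 o ≤ (11 : ℕ) := fun p hp => by
      have := (le_dist p.1 y.1 o).trans hp
      push_cast; linarith
    have := hi _ p.1.2 (b p hp); have := hi _ q.1.2 (b q hq)
    have := (abs_le.1 (dist_le_pi_dist (fun i => p.1.1 (s i)) (fun i => q.1.1 (s i)) i)).2
    linarith
  · obtain ⟨o, ho⟩ := nr y
    exact ⟨o, (dist_pt y.1 o).le.trans ho.le⟩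
  · change (B.d v (g⁻¹ • x) : ℝ) = B.d (g • v) x
    rw [← hd g, smul_inv_smul]
  · have := (s2 x y).geo hs ht
    rw [s0, s1] at this
    exact this
  · simpa using (un (fun u => σ x y ((1 - u) * s + u * t)) (fun z => (s2 x y z).rep hs ht) u hu).symm
  · simpa only [s0, s1] using un (fun s => ρ g (σ x y s)) (fun z => s2 x y (g⁻¹ • z)) s hs
  · have := un (τ x y) (fun z => cv_of_convexOn ((hτ.convex x y (ι z) (ι z)).congr fun s hs => by
      have := hτ.geodesic (ι z) (ι z) s hs 0 ⟨le_rfl, zero_le_one⟩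
      rw [hτ.source, dist_self, mul_zero, dist_eq_zero] at this
      simp only [this]
      exact dist_pt _ _)) t ht
    rwa [hτ.source, hτ.target] at this

end Br

end Pool.Agent.Lib.MP_63c928_gt.SY
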