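import Pool.Agent.Lib.MP_63c928_gt.SY.C1
import Pool.Agent.Lib.MP_63c928_gt.SY.H4

/-! Monodromy; the metric of a systolic graph. -/

namespace Pool.Agent.Lib.MP_63c928_gt.SY

variable {V : Type} {G : SimpleGraph V} {o : V} {N : List V → List V → Prop}

variable (o N) in
/-- Lifts of walks. -/
def Lf : ∀ {u v : V}, G.Walk u v → List V → List V → Prop
  | u, _, .nil => fun x y => x.headD o = u ∧ N x y ∧ y.headD o = u
  | u, _, .cons _ p => fun x y => x.headD o = u ∧ ∃ x', N x x' ∧ Lf p x' y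

lemma Lf.hd : ∀ {u v : V} {p : G.Walk u v} {x y : List V}, Lf o N p x y → x.headD o = u
  | _, _, .nil, _, _, h => h.1
  | _, _, .cons _ _, _, _, h => h.1

variable (I : Inv G o ⊤ N)
include I

lemma Inv.good : ∀ {u v : V} {p : G.Walk u v} {x y : List V}, Lf o N p x y → N x x
  | _, _, .nil, _, _, h => I.rf h.2.1
  | _, _, .cons _ _, _, _, h => h.2.elim fun _ h => I.rf h.1

lemma Inv.congr : ∀ {u v : V} {p : G.Walk u v} {x x' y : List V}, Lf o N p x y → N x x' →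
    x'.headD o = u → Lf o N p x' y
  | _, _, .nil, _, _, _, h, h1, h2 => ⟨h2, I.b h1 h.2.1 (Or.inl (h2.trans h.2.2.symm)), h.2.2⟩
  | _, _, .cons _ _, _, _, _, h, h1, h2 => by
    obtain ⟨e, z, h, g⟩ := h
    exact ⟨h2, z, I.b h1 h (by rw [h2, ← e]; exact I.a h), g⟩

lemma Inv.hom {u v : V} {p q : G.Walk u v} (h : EdgeHomotopic G p q) :
    ∀ x y, Lf o N p x y ↔ Lf o N q x y := by
  induction h with
  | back h p =>
    refine fun x y => ⟨fun ⟨e, x1, h1, e1, x2, h2, g⟩ => I.congr g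
      (I.b h2 (I.sy h1) (Or.inl (g.hd.trans e.symm))) e, fun g => ?_⟩
    obtain ⟨x1, h1, e1⟩ := I.c (I.good g) (ENat.natCast_lt_top _) (Or.inr (g.hd ▸ h.symm))
    exact ⟨g.hd, x1, h1, e1, x, I.sy h1, g⟩
  | tri h1 h2 h3 p =>
    refine fun x y => ⟨fun ⟨e, x1, g1, e1, x2, g2, g⟩ => ⟨e, x2, I.b (I.sy g1) g2
      (Or.inr (by rw [e, g.hd]; exact h3)), g⟩, fun ⟨e, x2, g2, g⟩ => ?_⟩
    obtain ⟨x1, g1, e1⟩ := I.c (I.rf g2) (ENat.natCast_lt_top _) (Or.inr (e ▸ h1.symm))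
    exact ⟨e, x1, g1, e1, x2, I.b g1 g2 (Or.inr (by rw [e1, g.hd]; exact h2)), g⟩
  | cons h _ ih => intro x y; simp only [Lf, ih]
  | refl p => exact fun _ _ => Iff.rfl
  | symm _ ih => exact fun x y => (ih x y).symm
  | trans _ _ ih ih' => exact fun x y => (ih x y).trans (ih' x y)

lemma Inv.walk {x y : List V} (h : Relation.ReflTransGen N x y) (hy : N y y) :
    ∀ u, x.headD o = u → ∃ p : G.Walk u (y.headD o), Lf o N p x y := by
  induction h using Relation.ReflTransGen.head_induction_on with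
  | refl => rintro u rfl; exact ⟨.nil, rfl, hy, rfl⟩
  | head h _ ih =>
    rintro u rfl
    rcases I.a h with e | e
    · obtain ⟨p, hp⟩ := ih _ e.symm
      exact ⟨p, I.congr hp (I.sy h) rfl⟩
    · obtain ⟨p, hp⟩ := ih _ rfl
      exact ⟨.cons e p, rfl, _, h, hp⟩

lemma Inv.reach : ∀ (n : ℕ) {x : List V}, N x x → x.length = n → Relation.ReflTransGen N x []
  | 0, x, _, h => by rw [List.length_eq_zero_iff.1 h]
  | n + 1, x, h, hl => by
    obtain ⟨a, a1, -, a2⟩ := I.d h rfl (by omega)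
    exact .head a1 (Inv.reach n (I.rf (I.sy a1)) (by omega))

lemma Inv.inj (hG : IsSystolic G) {x y : List V} (hx : N x x) (hy : N y y)
    (e : x.headD o = y.headD o) : N x y := by
  have : Relation.ReflTransGen N [] y := by
    have := I.reach _ hy rfl
    generalize ([] : List V) = z at this
    induction this with
    | refl => exact .refl
    | tail _ h ih => exact .head (I.sy h) ih
  obtain ⟨p, hp⟩ := I.walk ((I.reach _ hx rfl).trans this) hy _ e
  exact ((I.hom (hG.simplyConnected _ p) x y).1 hp).2.1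

lemma Inv.surj : ∀ {v w : V} (p : G.Walk v w), w = o →
    ∃ x, N x x ∧ x.headD o = v ∧ x.length ≤ p.length
  | _, _, .nil, h => ⟨[], I.z, h.symm, le_rfl⟩
  | _, _, .cons h p, e => by
    obtain ⟨x, x1, x2, x3⟩ := Inv.surj p e
    obtain ⟨y, y1, y2⟩ := I.c x1 (ENat.natCast_lt_top _) (Or.inr (x2 ▸ h))
    have := I.lv (I.sy y1)
    exact ⟨y, I.rf (I.sy y1), y2, by simp only [SimpleGraph.Walk.length_cons]; omega⟩

omit I in
lemma q_iff (hG : G.Connected) {x y : V} : (G.dist x y : ℤ) ≤ 1 ↔ Q G x y := by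
  rw [Q, ← hG.dist_eq_zero_iff, ← SimpleGraph.dist_eq_one_iff_adj]; omega

lemma Inv.dist_le (hG : G.Connected) : ∀ (n : ℕ) {x : List V}, N x x → x.length = n →
    G.dist (x.headD o) o ≤ n
  | 0, x, _, h => by rw [List.length_eq_zero_iff.1 h]; simp
  | n + 1, x, h, hl => by
    obtain ⟨a, a1, -, a2⟩ := I.d h rfl (by omega)
    have := Inv.dist_le hG n (I.rf (I.sy a1)) (by omega)
    have := (q_iff hG).2 (I.a a1)
    have := hG.dist_triangle (u := x.headD o) (v := a.headD o) (w := o)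
    omega

lemma Inv.len (hG : IsSystolic G) {x : List V} (h : N x x) : G.dist (x.headD o) o = x.length := by
  obtain ⟨p, hp⟩ := hG.connected.exists_walk_length_eq_dist (x.headD o) o
  obtain ⟨y, y1, y2, y3⟩ := I.surj p rfl
  have := I.eq (I.inj hG y1 h y2) y2
  have := I.dist_le hG.connected _ h rfl
  omega

lemma Inv.lift (hG : IsSystolic G) (v : V) : ∃ x, N x x ∧ x.headD o = v := by
  obtain ⟨p⟩ := hG.connected v o
  obtain ⟨y, y1, y2, -⟩ := I.surj p rfl
  exact ⟨y, y1, y2⟩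

omit I

lemma IsSystolic.tc (hG : IsSystolic G) {u v w : V} (h : Q G v w) (e : G.dist v u = G.dist w u)
    (h0 : 0 < G.dist v u) : ∃ a, Q G a v ∧ Q G a w ∧ G.dist a u + 1 = G.dist v u := by
  obtain ⟨N, I⟩ := exInv hG u
  obtain ⟨x, x1, rfl⟩ := I.lift hG v
  obtain ⟨y, y1, rfl⟩ := I.c x1 (ENat.natCast_lt_top _) h.sy
  have l1 := I.len hG x1
  have l2 := I.len hG (I.rf (I.sy y1))
  obtain ⟨a, a1, a2, a3⟩ := I.d y1 (by omega) (by omega)
  have l3 := I.len hG (I.rf (I.sy a1))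
  exact ⟨_, (I.a a1).sy, (I.a a2).sy, by omega⟩

lemma IsSystolic.qc (hG : IsSystolic G) {u z v w : V} (h : Q G v z) (h' : Q G w z)
    (e : G.dist v u + 1 = G.dist z u) (e' : G.dist w u + 1 = G.dist z u) : Q G v w := by
  obtain ⟨N, I⟩ := exInv hG u
  obtain ⟨x, x1, rfl⟩ := I.lift hG z
  obtain ⟨y, y1, rfl⟩ := I.c x1 (ENat.natCast_lt_top _) h
  obtain ⟨y', y2, rfl⟩ := I.c x1 (ENat.natCast_lt_top _) h'
  have l1 := I.len hG x1
  have l2 := I.len hG (I.rf (I.sy y1))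
  have l3 := I.len hG (I.rf (I.sy y2))
  exact I.a (I.e y1 y2 (by omega) (by omega))

lemma IsSystolic.two (hG : IsSystolic G) {a b c : V} (h1 : Q G a b) (h2 : Q G b c)
    (h : ¬ Q G a c) : G.dist b a = 1 ∧ G.dist c a = 2 := by
  have := (h1.adj h2 h).symm
  rw [← SimpleGraph.dist_eq_one_iff_adj] at this
  have h2 := (q_iff hG.connected).2 h2.sy
  rw [← q_iff hG.connected, SimpleGraph.dist_comm] at h
  have := hG.connected.dist_triangle (u := c) (v := b) (w := a)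
  omega

lemma IsSystolic.p5' (hG : IsSystolic G) {a b c e f : V} (h1 : Q G a b) (h2 : Q G b c)
    (h3 : Q G c e) (h4 : Q G e f) (h5 : Q G f a) : (Q G a c ∧ Q G a e) ∨ (Q G b e ∧ Q G b f) ∨
      (Q G c f ∧ Q G c a) ∨ (Q G e a ∧ Q G e b) ∨ (Q G f b ∧ Q G f c) := by
  by_cases n1 : Q G a c <;> by_cases n2 : Q G a e
  · exact Or.inl ⟨n1, n2⟩
  · have := hG.two n1 h3 n2; have := hG.two h5.sy h4.sy n2
    exact Or.inr (Or.inr (Or.inl ⟨hG.qc (u := a) h3 h4.sy (by omega) (by omega), n1.sy⟩))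
  · have := hG.two n2 h3.sy n1; have := hG.two h1 h2 n1
    exact Or.inr (Or.inr (Or.inr (Or.inl
      ⟨n2.sy, hG.qc (u := a) h3.sy h2 (by omega) (by omega)⟩)))
  · have := hG.two h5.sy h4.sy n2; have := hG.two h1 h2 n1
    obtain ⟨s, s1, s2, s3⟩ := hG.tc (u := a) h3 (by omega) (by omega)
    exact hG.p5 ((q_iff hG.connected).1 (by omega : (G.dist s a : ℤ) ≤ 1)).sy
      (hG.qc (u := a) h2 s1 (by omega) (by omega)) s1.sy s2.sy
      (hG.qc (u := a) h4.sy s2 (by omega) (by omega)) h1 h2 h3 h4 h5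

/-- The metric of a systolic graph. -/
noncomputable def IsSystolic.br (hG : IsSystolic G)
    (hd : ∃ D : ℕ, ∀ v, (G.neighborSet v).encard ≤ D) : Br V where
  d x y := G.dist x y
  refl x := by simp
  eq h := hG.connected.dist_eq_zero_iff.1 (by omega)
  symm x y := by rw [SimpleGraph.dist_comm]
  tri x y z := by exact_mod_cast hG.connected.dist_triangle
  tc h e h0 := by
    obtain ⟨a, a1, a2, a3⟩ := hG.tc ((q_iff hG.connected).1 h) (by exact_mod_cast e) (by omega)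
    exact ⟨a, (q_iff hG.connected).2 a1, (q_iff hG.connected).2 a2, by omega⟩
  qc {u} _ _ _ h h' e e' := (q_iff hG.connected).2 (hG.qc (u := u) ((q_iff hG.connected).1 h)
    ((q_iff hG.connected).1 h') (by omega) (by omega))
  p5 := by simp only [q_iff hG.connected]; exact hG.p5'
  deg := by
    classical
    obtain ⟨D, hD⟩ := hd
    refine ⟨D + 1, fun x => ?_⟩
    have hf := Set.finite_of_encard_le_coe (hD x)
    refine ⟨insert x hf.toFinset, (Finset.card_insert_le _ _).trans (Nat.succ_le_succ ?_),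
      fun y hy => ?_⟩
    · have := hD x
      rw [hf.encard_eq_coe_toFinset_card] at this
      exact_mod_cast this
    · rcases (q_iff hG.connected).1 hy with h | h
      · simp [h]
      · simp [h.symm]

section Action

variable {Γ : Type} [Group Γ] [MulAction Γ V]

lemma smul_dist (hG : G.Connected) (hΓ : ∀ (g : Γ) v w, G.Adj v w → G.Adj (g • v) (g • w))
    (g : Γ) (x y : V) : G.dist (g • x) (g • y) = G.dist x y := by
  have key : ∀ (g : Γ) x y, G.dist (g • x) (g • y) ≤ G.dist x y := fun g x y => by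
    obtain ⟨p, hp⟩ := hG.exists_walk_length_eq_dist x y
    simpa [hp] using SimpleGraph.dist_le (p.map ⟨fun x => g • x, hΓ g _ _⟩)
  exact le_antisymm (key g x y) (by simpa using key g⁻¹ (g • x) (g • y))

variable {Y : Type} [MetricSpace Y] {ι : V → Y} {ρ : Γ →* (Y ≃ᵢ Y)}

lemma proper_act (B : Br V) (h1 : ∀ v w, dist (ι v) (ι w) = B.d v w)
    (h2 : ∀ y, ∃ v, dist y (ι v) ≤ 10) (h3 : ∀ g v, ρ g (ι v) = ι (g • v))
    (h : ∀ v : V, Finite (MulAction.stabilizer Γ v)) (y : Y) (r : ℝ) :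
    {g | dist (ρ g y) y ≤ r}.Finite := by
  obtain ⟨v, hv⟩ := h2 y
  obtain ⟨_, hs⟩ := B.ball ⌈r + 20⌉₊
  obtain ⟨s, -, hs⟩ := hs v
  refine Set.Finite.of_finite_fibers (fun g : Γ => g • v) (s.finite_toSet.subset ?_) ?_
  · rintro _ ⟨g, hg, rfl⟩
    have a1 := dist_triangle4 (ρ g (ι v)) (ρ g y) y (ι v)
    rw [(ρ g).dist_eq, h3, h1, dist_comm] at a1
    have a2 : dist (ρ g y) y ≤ r := hg
    have a3 := Nat.le_ceil (r + 20)
    exact hs _ (by exact_mod_cast (by linarith : (B.d (g • v) v : ℝ) ≤ (⌈r + 20⌉₊ : ℕ)))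
  · rintro _ ⟨g, -, rfl⟩
    refine ((Set.toFinite (MulAction.stabilizer Γ v : Set Γ)).image (g * ·)).subset ?_
    rintro k ⟨-, hk⟩
    have hk : k • v = g • v := hk
    exact ⟨g⁻¹ * k, by simp [mul_smul, hk], by simp⟩

lemma cocompact_act [ProperSpace Y] (h2 : ∀ y, ∃ v, dist y (ι v) ≤ 10)
    (h3 : ∀ g v, ρ g (ι v) = ι (g • v)) (h : Finite (MulAction.orbitRel.Quotient Γ V)) :
    ∃ K : Set Y, IsCompact K ∧ ∀ y, ∃ g, ρ g y ∈ K := by
  refine ⟨⋃ q : MulAction.orbitRel.Quotient Γ V, Metric.closedBall (ι q.out) 10,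
    isCompact_iUnion fun _ => isCompact_closedBall _ _, fun y => ?_⟩
  obtain ⟨v, hv⟩ := h2 y
  obtain ⟨g, hg⟩ : (Quotient.mk (MulAction.orbitRel Γ V) v).out ∈ MulAction.orbit Γ v :=
    Quotient.mk_out (s := MulAction.orbitRel Γ V) v
  refine ⟨g, Set.mem_iUnion.2 ⟨Quotient.mk _ v, ?_⟩⟩
  rw [Metric.mem_closedBall, ← hg, ← h3, (ρ g).dist_eq]
  exact hv

end Action

end Pool.Agent.Lib.MP_63c928_gt.SY
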