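import Mathlib

/-! Bridged graphs through their integer metric: flat triples. -/

namespace Pool.Agent.Lib.MP_63c928_gt.SY

/-- The metric of a bridged graph of bounded degree. -/
structure Br (V : Type) where
  d : V → V → ℤ
  refl : ∀ x, d x x = 0
  eq : ∀ {x y}, d x y ≤ 0 → x = y
  symm : ∀ x y, d x y = d y x
  tri : ∀ x y z, d x z ≤ d x y + d y z
  tc : ∀ {u v w}, d v w ≤ 1 → d v u = d w u → 0 < d v u →
    ∃ a, d a v ≤ 1 ∧ d a w ≤ 1 ∧ d a u + 1 = d v u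
  qc : ∀ {u z v w}, d v z ≤ 1 → d w z ≤ 1 → d v u + 1 = d z u → d w u + 1 = d z u → d v w ≤ 1
  p5 : ∀ {a b c e f}, d a b ≤ 1 → d b c ≤ 1 → d c e ≤ 1 → d e f ≤ 1 → d f a ≤ 1 →
    (d a c ≤ 1 ∧ d a e ≤ 1) ∨ (d b e ≤ 1 ∧ d b f ≤ 1) ∨ (d c f ≤ 1 ∧ d c a ≤ 1) ∨
      (d e a ≤ 1 ∧ d e b ≤ 1) ∨ (d f b ≤ 1 ∧ d f c ≤ 1)
  deg : ∃ N : ℕ, ∀ x, ∃ s : Finset V, s.card ≤ N ∧ ∀ y, d y x ≤ 1 → y ∈ s

namespace Br

variable {V : Type} (B : Br V)

lemma nonneg (x y : V) : 0 ≤ B.d x y := by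
  have := B.tri x y x; have := B.refl x; have := B.symm x y; omega

variable {B}

lemma sy {x y : V} (h : B.d x y ≤ 1) : B.d y x ≤ 1 := B.symm x y ▸ h

lemma rf (x : V) : B.d x x ≤ 1 := by have := B.refl x; omega

lemma lip {x y : V} (h : B.d x y ≤ 1) (u : V) : B.d x u ≤ B.d y u + 1 ∧ B.d y u ≤ B.d x u + 1 := by
  have := B.tri x y u; have := B.tri y x u; have := B.symm x y; omega

lemma lip3 {x y : V} (h : B.d x y ≤ 1) (a b c : V) :
    (B.d x a ≤ B.d y a + 1 ∧ B.d y a ≤ B.d x a + 1) ∧ (B.d x b ≤ B.d y b + 1 ∧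
      B.d y b ≤ B.d x b + 1) ∧ B.d x c ≤ B.d y c + 1 ∧ B.d y c ≤ B.d x c + 1 :=
  ⟨lip h a, lip h b, lip h c⟩

lemma p4 {a b c e : V} (h1 : B.d a b ≤ 1) (h2 : B.d b c ≤ 1) (h3 : B.d c e ≤ 1)
    (h4 : B.d e a ≤ 1) : B.d a c ≤ 1 ∨ B.d b e ≤ 1 := by
  by_cases h : B.d a c ≤ 1
  · exact Or.inl h
  have := lip h2 a; have := lip h3 a; have := B.symm a b; have := B.symm a c
  exact Or.inr (B.qc (u := a) h2 (sy h3) (by omega) (by omega))

lemma low {n x a : V} (h : B.d n x ≤ 1) (h1 : B.d n a ≤ B.d x a) (h0 : 0 < B.d x a) :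
    ∃ s, B.d s x ≤ 1 ∧ B.d s n ≤ 1 ∧ B.d s a + 1 = B.d x a := by
  by_cases h2 : B.d n a = B.d x a
  · exact B.tc (sy h) h2.symm h0
  · have := lip h a
    exact ⟨n, h, rf n, by omega⟩

lemma nb {y y' : V} : ∀ (k : ℕ) {x : V}, B.d x y = k → B.d y y' < B.d x y + B.d x y' →
    ∃ a a', B.d a x ≤ 1 ∧ B.d a' x ≤ 1 ∧ B.d a a' ≤ 1 ∧ B.d a y + 1 = B.d x y ∧
      B.d a' y' + 1 = B.d x y'
  | 0, x, hk, h => by
    obtain rfl := B.eq (x := x) (y := y) (by omega)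
    have := B.refl x; omega
  | k + 1, x, hk, h => by
    have h0 : 0 < B.d x y' := by
      by_contra h0
      obtain rfl := B.eq (x := x) (y := y') (by omega)
      have := B.refl x; have := B.symm x y; omega
    obtain ⟨p, h1, -, h2⟩ := B.tc (u := y) (rf x) rfl (by omega)
    have key : ∀ p, B.d p x ≤ 1 → B.d p y + 1 = B.d x y → B.d p y' ≤ B.d x y' →
        ∃ a a', B.d a x ≤ 1 ∧ B.d a' x ≤ 1 ∧ B.d a a' ≤ 1 ∧ B.d a y + 1 = B.d x y ∧
          B.d a' y' + 1 = B.d x y' := fun p h1 h2 h3 => by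
      obtain ⟨s, h4, h5, h6⟩ := low h1 h3 h0
      exact ⟨p, s, h1, h4, sy h5, h2, h6⟩
    by_cases h3 : B.d p y' ≤ B.d x y'
    · exact key p h1 h2 h3
    have := lip h1 y'
    obtain ⟨b, b', h4, h5, h6, h7, h8⟩ := nb (y := y) (y' := y') k (x := p) (by omega) (by omega)
    have h9 : B.d b' x ≤ 1 := B.qc (u := y') h5 (sy h1) h8 (by omega)
    have := lip h9 y; have := lip h6 y
    exact key b' h9 (by omega) (by omega)

lemma nb' {x y y' : V} (h : B.d y y' < B.d x y + B.d x y') :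
    ∃ a a', B.d a x ≤ 1 ∧ B.d a' x ≤ 1 ∧ B.d a a' ≤ 1 ∧ B.d a y + 1 = B.d x y ∧
      B.d a' y' + 1 = B.d x y' :=
  nb (B.d x y).toNat (Int.toNat_of_nonneg (B.nonneg _ _)).symm h

lemma desc0 {q y : V} : ∀ (k : ℕ) {x : V}, B.d x q = k → B.d q y < B.d x y →
    ∃ a, B.d a x ≤ 1 ∧ B.d a q + 1 = B.d x q ∧ B.d a y + 1 = B.d x y
  | 0, x, hk, h => by
    obtain rfl := B.eq (x := x) (y := q) (by omega)
    omega
  | k + 1, x, hk, h => by
    obtain ⟨p, h1, -, h2⟩ := B.tc (u := q) (rf x) rfl (by omega)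
    have := lip h1 y
    by_cases h3 : B.d p y + 1 = B.d x y
    · exact ⟨p, h1, h2, h3⟩
    obtain ⟨p', h4, h5, h6⟩ := desc0 (q := q) (y := y) k (x := p) (by omega) (by omega)
    by_cases h7 : B.d p y = B.d x y
    · have := B.nonneg q y
      obtain ⟨a, h8, h9, h10⟩ := B.tc (u := y) h1 h7 (by omega)
      have := lip (B.qc (u := y) h8 h4 h10 h6) q
      have := lip h9 q
      exact ⟨a, h9, by omega, by omega⟩
    · have := lip (B.qc (u := y) h4 (sy h1) h6 (by omega)) q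
      omega

lemma desc {x q y : V} (h : B.d q y < B.d x y) :
    ∃ a, B.d a x ≤ 1 ∧ B.d a q + 1 = B.d x q ∧ B.d a y + 1 = B.d x y :=
  desc0 (B.d x q).toNat (Int.toNat_of_nonneg (B.nonneg _ _)).symm h

variable (B) in
/-- `x` sees `a, b, c` in three directions of a flat hexagon. -/
structure LC (x a b c : V) : Prop where
  ab : B.d a b < B.d x a + B.d x b
  ac : B.d a c < B.d x a + B.d x c
  bc : B.d b c < B.d x b + B.d x c
  min : ∀ n, B.d n x ≤ 1 → B.d x a + B.d x b + B.d x c ≤ B.d n a + B.d n b + B.d n c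

variable {x a b c : V}

lemma LC.s12 (h : B.LC x a b c) : B.LC x b a c :=
  ⟨by have := h.ab; have := B.symm a b; omega, h.bc, h.ac,
    fun n hn => by have := h.min n hn; omega⟩

lemma LC.s23 (h : B.LC x a b c) : B.LC x a c b :=
  ⟨h.ac, h.ab, by have := h.bc; have := B.symm b c; omega,
    fun n hn => by have := h.min n hn; omega⟩

lemma LC.pos (h : B.LC x a b c) : 0 < B.d x a ∧ 0 < B.d x b ∧ 0 < B.d x c := by
  have := h.ab; have := h.ac; have := B.tri x a b; have := B.tri x b a; have := B.tri x c a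
  have := B.symm a b; have := B.symm a c; omega

variable (B) in
/-- An adjacent pair of neighbours of `x`, one closer to `a`, one closer to `b`. -/
def Pr (x a b c p q : V) : Prop :=
  B.d p x ≤ 1 ∧ B.d q x ≤ 1 ∧ B.d p q ≤ 1 ∧ (B.d p a + 1 = B.d x a ∧ B.d p b = B.d x b ∧
    B.d p c = B.d x c + 1) ∧ B.d q a = B.d x a ∧ B.d q b + 1 = B.d x b ∧ B.d q c = B.d x c + 1

lemma LC.typ (h : B.LC x a b c) {p q : V} (h1 : B.d p x ≤ 1) (h2 : B.d q x ≤ 1)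
    (h3 : B.d p q ≤ 1) (h4 : B.d p a + 1 = B.d x a) (h5 : B.d q b + 1 = B.d x b) :
    B.Pr x a b c p q := by
  have := h.min p h1; have := h.min q h2; have := lip3 h3 a b c
  have := lip h1 c; have := lip h2 c
  exact ⟨h1, h2, h3, by omega, by omega⟩

lemma LC.pair (h : B.LC x a b c) : ∃ p q, B.Pr x a b c p q := by
  obtain ⟨p, q, h1, h2, h3, h4, h5⟩ := nb' h.ab
  exact ⟨p, q, h.typ h1 h2 h3 h4 h5⟩

lemma LC.pairAdj (h : B.LC x a b c) {n : V} (hn : B.d n x ≤ 1) (ha : B.d n a ≤ B.d x a)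
    (hb : B.d n b ≤ B.d x b) : ∃ p q, B.Pr x a b c p q ∧ B.d n p ≤ 1 ∧ B.d n q ≤ 1 := by
  obtain ⟨p, q, h1, h2, h3, ⟨h4, -⟩, -, h5, -⟩ := h.pair
  obtain ⟨s, s1, s2, s3⟩ := low hn ha h.pos.1
  obtain ⟨t, t1, t2, t3⟩ := low hn hb h.pos.2.1
  rcases B.p5 (sy s2) (B.qc s1 h1 s3 h4) h3 (B.qc h2 t1 h5 t3) t2 with
    ⟨k1, k2⟩ | ⟨k1, k2⟩ | ⟨k1, k2⟩ | ⟨k1, k2⟩ | ⟨k1, k2⟩
  · exact ⟨p, q, h.typ h1 h2 h3 h4 h5, k1, k2⟩
  · exact ⟨s, t, h.typ s1 t1 k2 s3 t3, sy s2, sy t2⟩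
  · exact ⟨p, t, h.typ h1 t1 k1 h4 t3, sy k2, sy t2⟩
  · exact ⟨s, q, h.typ s1 h2 (sy k2) s3 h5, sy s2, sy k1⟩
  · exact ⟨s, t, h.typ s1 t1 (sy k1) s3 t3, sy s2, sy t2⟩

variable (B) in
/-- A twin of `x`. -/
def Tw (x a b c n : V) : Prop :=
  B.d n x ≤ 1 ∧ B.d n a = B.d x a ∧ B.d n b = B.d x b ∧ B.d n c = B.d x c

lemma Tw.s12 {n : V} (h : B.Tw x a b c n) : B.Tw x b a c n := ⟨h.1, h.2.2.1, h.2.1, h.2.2.2⟩
lemma Tw.s23 {n : V} (h : B.Tw x a b c n) : B.Tw x a c b n := ⟨h.1, h.2.1, h.2.2.2, h.2.2.1⟩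
lemma Tw.symm {n : V} (h : B.Tw x a b c n) : B.Tw n a b c x :=
  ⟨sy h.1, h.2.1.symm, h.2.2.1.symm, h.2.2.2.symm⟩

lemma LC.tw (h : B.LC x a b c) {n m : V} (hn : B.Tw x a b c n) (h1 : B.d m x ≤ 1)
    (h2 : B.d m a + 1 = B.d x a) (h3 : B.d m c = B.d x c) : B.d n m ≤ 1 := by
  obtain ⟨n1, n2, n3, n4⟩ := hn
  obtain ⟨p, q, ⟨p1, -, -, p2, -⟩, p3, -⟩ := h.pairAdj n1 n2.le n3.le
  obtain ⟨t, t1, t2, t3⟩ := low n1 n4.le h.pos.2.2
  obtain ⟨t', u1, u2, u3⟩ := low h1 h3.le h.pos.2.2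
  rcases B.p5 p3 (B.qc p1 h1 p2.1 h2) (sy u2) (B.qc u1 t1 u3 t3) t2 with
    ⟨k1, k2⟩ | ⟨k1, k2⟩ | ⟨k1, k2⟩ | ⟨k1, k2⟩ | ⟨k1, k2⟩
  · exact k1
  · have := lip k1 c; omega
  · exact sy k2
  · have := lip k2 c; omega
  · have := lip k1 c; omega

lemma LC.mv (h : B.LC x a b c) {m : V} (h1 : B.d m x ≤ 1) (ha : B.d m a + 1 = B.d x a)
    (hb : B.d m b = B.d x b) (hc : B.d m c = B.d x c + 1) (h2 : B.d a b < B.d m a + B.d m b) :
    B.LC m a b c := by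
  refine ⟨h2, by have := h.ac; omega, by have := h.bc; omega, fun n hn => ?_⟩
  by_contra hlt
  have hp := h.pos
  have h0 : 0 < B.d m a := by have := B.tri m a b; omega
  obtain ⟨q, q1, q2, q3⟩ := low h1 hb.le hp.2.1
  obtain ⟨-, -, -, -, q4⟩ := h.typ h1 q1 (sy q2) ha q3
  obtain ⟨p, -, p1, -, -, p2, -⟩ := h.s23.pair
  have p3 := B.qc p1 h1 p2.1 ha
  obtain ⟨r, r1, r2, r3⟩ := B.tc (u := a) p3 (by omega) (by omega)
  have l := lip3 hn a b c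
  by_cases g : B.d n c = B.d x c
  · have := h.min n (B.qc (u := c) hn (sy h1) (by omega) (by omega)); omega
  obtain ⟨s, s1, s2, s3⟩ := B.tc (u := c) hn (by
    by_cases g' : B.d n b + 1 = B.d x b
    · have := lip (B.qc (u := b) hn q2 (by omega) (by omega)) a; omega
    · omega) (by omega)
  have := lip s2 c
  by_cases g' : B.d n b + 1 = B.d x b
  · have := lip (B.qc (u := b) hn q2 (by omega) (by omega)) a
    have s4 := B.qc (u := c) s2 (sy h1) (by omega) (by omega)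
    have s5 := B.qc (u := c) p3 s2 (by omega) (by omega)
    obtain ⟨t, t1, t2, t3⟩ := B.tc (u := a) hn (by omega) (by omega)
    have := h.min s s4; have := lip s1 b; have := lip s5 b
    rcases B.p5 (B.qc (u := a) t2 r2 (by omega) (by omega)) r1 s5 s1 (sy t1) with
      ⟨k1, k2⟩ | ⟨k1, k2⟩ | ⟨k1, k2⟩ | ⟨k1, k2⟩ | ⟨k1, k2⟩ <;>
    · have := lip3 k1 a b c; have := lip3 k2 a b c; omega
  · have s4 := B.qc (u := c) s2 (sy h1) (by omega) (by omega)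
    obtain ⟨t, t1, t2, t3⟩ := B.tc (u := b) hn (by omega) (by omega)
    have := h.min s s4; have := lip s1 a
    rcases B.p5 (sy t1) (B.qc (u := b) t2 q2 (by omega) (by omega)) q1 (sy s4) s1 with
      ⟨k1, k2⟩ | ⟨k1, k2⟩ | ⟨k1, k2⟩ | ⟨k1, k2⟩ | ⟨k1, k2⟩ <;>
    · have := lip3 k1 a b c; have := lip3 k2 a b c; omega

lemma LC.mvtw0 (h : B.LC x a b c) {n m : V} (hn : B.Tw x a b c n) (h1 : B.d m n ≤ 1)
    (ha : B.d m a + 1 = B.d x a) : B.d x b + B.d x c < B.d m b + B.d m c := by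
  by_contra hlt
  have hp := h.pos
  obtain ⟨h2, -, a2, -, -, b2, -⟩ := h.pair
  obtain ⟨h1', -, a1, -, -, b1, -⟩ := h.s23.pair
  obtain ⟨h4, h5, a4, a5, a45, b4, b5⟩ := h.s12.s23.pair
  have c2 := h.s23.tw hn.s23 a2 b2.1 b2.2.1
  have c1 := h.tw hn a1 b1.1 b1.2.1
  have c4 := h.s12.tw hn.s12 a4 b4.1 b4.2.1
  have c5 := h.s23.s12.tw hn.s23.s12 a5 b5.2.1 b5.1
  obtain ⟨n1, n2, n3, n4⟩ := hn
  have l := lip3 h1 a b c
  have g1 : B.d m b + 1 ≠ B.d x b := fun g => by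
    have := lip (B.qc (u := b) h1 (sy c4) (by omega) (by omega)) a; omega
  have g2 : B.d m c + 1 ≠ B.d x c := fun g => by
    have := lip (B.qc (u := c) h1 (sy c5) (by omega) (by omega)) a; omega
  have g3 : ¬ B.d m x ≤ 1 := fun g => by have := h.min m g; omega
  obtain ⟨s, s1, s2, s3⟩ := B.tc (u := b) h1 (by omega) (by omega)
  obtain ⟨t, t1, t2, t3⟩ := B.tc (u := c) h1 (by omega) (by omega)
  have s4 := B.qc (u := b) s2 (sy c4) (by omega) (by omega)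
  have t4 := B.qc (u := c) t2 (sy c5) (by omega) (by omega)
  have s5 : B.d s x ≤ 1 := by
    rcases B.p5 (sy a2) (B.qc (u := a) (sy c2) h1 (by omega) (by omega)) (sy s1) s4 a4 with
      ⟨k1, k2⟩ | ⟨k1, k2⟩ | ⟨k1, k2⟩ | ⟨k1, k2⟩ | ⟨k1, k2⟩
    · exact absurd (sy k1) g3
    · have := lip k2 a; omega
    · exact absurd k2 g3
    · exact k1
    · have := lip k1 a; omega
  have t5 : B.d t x ≤ 1 := by
    rcases B.p5 (sy a1) (B.qc (u := a) (sy c1) h1 (by omega) (by omega)) (sy t1) t4 a5 with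
      ⟨k1, k2⟩ | ⟨k1, k2⟩ | ⟨k1, k2⟩ | ⟨k1, k2⟩ | ⟨k1, k2⟩
    · exact absurd (sy k1) g3
    · have := lip k2 a; omega
    · exact absurd k2 g3
    · exact k1
    · have := lip k1 a; omega
  have := h.min s s5; have := h.min t t5; have := lip s1 a; have := lip t1 a
  rcases B.p5 (sy s1) s4 a45 (sy t4) t1 with
    ⟨k1, k2⟩ | ⟨k1, k2⟩ | ⟨k1, k2⟩ | ⟨k1, k2⟩ | ⟨k1, k2⟩ <;>
  · have := lip3 k1 a b c; have := lip3 k2 a b c; omega

lemma LC.mvtw (h : B.LC x a b c) {n : V} (hn : B.Tw x a b c n) : B.LC n a b c := by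
  have ⟨_, n2, n3, n4⟩ := hn
  refine ⟨by have := h.ab; omega, by have := h.ac; omega, by have := h.bc; omega,
    fun m hm => ?_⟩
  have := h.mvtw0 hn hm
  have := h.s12.mvtw0 hn.s12 hm
  have := h.s23.s12.mvtw0 hn.s23.s12 hm
  have := lip3 hm a b c
  omega

lemma LC.step (h : B.LC x a b c) (h1 : B.d a b + 1 < B.d x a + B.d x b) :
    ∃ m, B.d m x ≤ 1 ∧ B.LC m a b c ∧ B.d m a + 1 = B.d x a ∧ B.d m b = B.d x b ∧
      B.d m c = B.d x c + 1 := by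
  obtain ⟨p, -, p1, -, -, p2, -⟩ := h.pair
  exact ⟨p, p1, h.mv p1 p2.1 p2.2.1 p2.2.2 (by omega), p2⟩

lemma LC.steps : ∀ (k : ℕ) {x : V}, B.LC x a b c → B.d a b + k < B.d x a + B.d x b →
    ∃ m, B.LC m a b c ∧ B.d m a + k = B.d x a ∧ B.d m b = B.d x b ∧ B.d m c = B.d x c + k
  | 0, x, h, _ => ⟨x, h, by simp⟩
  | k + 1, x, h, h1 => by
    obtain ⟨p, -, p1, p2⟩ := h.step (by omega)
    obtain ⟨m, m1, m2⟩ := LC.steps k p1 (by omega)
    exact ⟨m, m1, by omega⟩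

lemma LC.reach1 (h : B.LC x a b c) {j k : ℤ} (hj : 0 ≤ j) (hk : 0 ≤ k)
    (h1 : B.d a c + j < B.d x a + B.d x c) (h2 : B.d a b + k < B.d x a + B.d x b) :
    ∃ m, B.LC m a b c ∧ B.d m a + j + k = B.d x a ∧ B.d m b = B.d x b + j ∧
      B.d m c = B.d x c + k := by
  lift j to ℕ using hj
  lift k to ℕ using hk
  obtain ⟨p, p1, p2⟩ := h.s23.steps j h1
  obtain ⟨m, m1, m2⟩ := p1.s23.steps k (by omega)
  exact ⟨m, m1, by omega⟩

lemma LC.reach2 (h : B.LC x a b c) {i j : ℤ} (hi : 0 ≤ i) (hj : 0 ≤ j)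
    (h2 : B.d a b + i + j < B.d x a + B.d x b) :
    ∃ m, B.LC m a b c ∧ B.d m a + i = B.d x a ∧ B.d m b + j = B.d x b ∧
      B.d m c = B.d x c + i + j := by
  lift i to ℕ using hi
  lift j to ℕ using hj
  obtain ⟨p, p1, p2⟩ := h.steps i (by omega)
  obtain ⟨m, m1, m2⟩ := p1.s12.steps j (by have := B.symm a b; omega)
  exact ⟨m, m1.s12, by omega⟩

/-- The set of flat points is a full open triangle. -/
lemma LC.reach (h : B.LC x a b c) {i j k : ℤ} (hs : i + j + k = B.d x a + B.d x b + B.d x c)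
    (h1 : B.d a b < i + j) (h2 : B.d a c < i + k) (h3 : B.d b c < j + k) :
    ∃ m, B.LC m a b c ∧ B.d m a = i ∧ B.d m b = j ∧ B.d m c = k := by
  have := B.symm a b; have := B.symm a c; have := B.symm b c
  rcases le_total i (B.d x a) with ha | ha <;> rcases le_total j (B.d x b) with hb | hb <;>
    rcases le_total k (B.d x c) with hc | hc
  · exact ⟨x, h, by omega⟩
  · obtain ⟨m, m1, m2⟩ := h.reach2 (i := B.d x a - i) (j := B.d x b - j) (by omega) (by omega)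
      (by omega)
    exact ⟨m, m1, by omega⟩
  · obtain ⟨m, m1, m2⟩ := h.s23.reach2 (i := B.d x a - i) (j := B.d x c - k) (by omega)
      (by omega) (by omega)
    exact ⟨m, m1.s23, by omega⟩
  · obtain ⟨m, m1, m2⟩ := h.reach1 (j := j - B.d x b) (k := k - B.d x c) (by omega) (by omega)
      (by omega) (by omega)
    exact ⟨m, m1, by omega⟩
  · obtain ⟨m, m1, m2⟩ := h.s12.s23.reach2 (i := B.d x b - j) (j := B.d x c - k) (by omega)
      (by omega) (by omega)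
    exact ⟨m, m1.s23.s12, by omega⟩
  · obtain ⟨m, m1, m2⟩ := h.s12.reach1 (j := i - B.d x a) (k := k - B.d x c) (by omega)
      (by omega) (by omega) (by omega)
    exact ⟨m, m1.s12, by omega⟩
  · obtain ⟨m, m1, m2⟩ := h.s23.s12.reach1 (j := i - B.d x a) (k := j - B.d x b) (by omega)
      (by omega) (by omega) (by omega)
    exact ⟨m, m1.s12.s23, by omega⟩
  · exact ⟨x, h, by omega⟩

end Br

end Pool.Agent.Lib.MP_63c928_gt.SY
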