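import Pool.Agent.Lib.MP_63c928_gt.SY.G1

/-! Bridged graphs: a Helly theorem for balls, finding flat triples, replacing a direction. -/

namespace Pool.Agent.Lib.MP_63c928_gt.SY

namespace Br

variable {V : Type} {B : Br V} {x a b c : V}

/-- A potential on triples of integers. -/
def pot (i j k : ℤ) : ℤ :=
  3 * (max i 0 + max j 0 + max k 0) + max (max i 0) (max (max j 0) (max k 0)) -
    min (max i 0) (min (max j 0) (max k 0))

lemma pot12 (i j k : ℤ) : pot i j k = pot j i k := by unfold pot; omega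
lemma pot23 (i j k : ℤ) : pot i j k = pot i k j := by unfold pot; omega
lemma pot_nonneg (i j k : ℤ) : 0 ≤ pot i j k := by unfold pot; omega

lemma bal {i j k : ℤ} (hi : 0 ≤ i) (hij : B.d a b < i + j)
    (h : ∀ y, pot (B.d x a - i + 1) (B.d x b - j + 1) (B.d x c - k + 1) ≤
      pot (B.d y a - i + 1) (B.d y b - j + 1) (B.d y c - k + 1))
    (h1 : i < B.d x a) (h2 : B.d x b - j ≤ B.d x a - i) (h3 : B.d x c - k ≤ B.d x b - j) :
    B.d x a - i ≤ B.d x c - k + 1 := by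
  by_contra h4
  by_cases h5 : B.d x b - j + 1 < 0
  · obtain ⟨p, p1, -, p2⟩ := B.tc (u := a) (rf x) rfl (by omega)
    have := lip3 p1 a b c
    have := h p
    unfold pot at this
    omega
  · obtain ⟨p, q, p1, q1, p2, p3, q2⟩ := nb' (B := B) (x := x) (y := a) (y' := b) (by omega)
    have := lip3 p1 a b c
    have := lip p2 b
    have := h p
    unfold pot at this
    omega

lemma pot_lt {i j k i' j' k' : ℤ} (h1 : 1 ≤ i) (h2 : 1 ≤ j) (h3 : 1 ≤ k) (a1 : i ≤ j + 1)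
    (a2 : i ≤ k + 1) (a3 : j ≤ i + 1) (a4 : j ≤ k + 1) (a5 : k ≤ i + 1) (a6 : k ≤ j + 1)
    (b1 : i' ≤ i + 1 ∧ i ≤ i' + 1) (b2 : j' ≤ j + 1 ∧ j ≤ j' + 1) (b3 : k' ≤ k + 1 ∧ k ≤ k' + 1)
    (h : i' + j' + k' < i + j + k) : pot i' j' k' < pot i j k := by
  unfold pot
  rw [max_eq_left (by omega : 0 ≤ i), max_eq_left (by omega : 0 ≤ j),
    max_eq_left (by omega : 0 ≤ k), max_eq_left (by omega : 0 ≤ i'),
    max_eq_left (by omega : 0 ≤ j'), max_eq_left (by omega : 0 ≤ k')]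
  omega

lemma bal_fin {i j k : ℤ} (e1 : 0 < i → j ≤ i → k ≤ j → i ≤ k + 1)
    (e2 : 0 < i → k ≤ i → j ≤ k → i ≤ j + 1) (e3 : 0 < j → i ≤ j → k ≤ i → j ≤ k + 1)
    (e4 : 0 < j → k ≤ j → i ≤ k → j ≤ i + 1) (e5 : 0 < k → i ≤ k → j ≤ i → k ≤ j + 1)
    (e6 : 0 < k → j ≤ k → i ≤ j → k ≤ i + 1) (h : 0 < i ∨ 0 < j ∨ 0 < k) :
    0 ≤ i ∧ 0 ≤ j ∧ 0 ≤ k ∧ i ≤ j + 1 ∧ i ≤ k + 1 ∧ j ≤ i + 1 ∧ j ≤ k + 1 ∧ k ≤ i + 1 ∧
      k ≤ j + 1 := by
  rcases le_total i j with h1 | h1 <;> rcases le_total i k with h2 | h2 <;>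
    rcases le_total j k with h3 | h3 <;> omega

lemma empty (x0 : V) {i j k : ℤ} (hi : 0 ≤ i) (hj : 0 ≤ j) (hk : 0 ≤ k) (hij : B.d a b < i + j)
    (hik : B.d a c < i + k) (hjk : B.d b c < j + k)
    (he : ∀ y, i < B.d y a ∨ j < B.d y b ∨ k < B.d y c) :
    ∃ x, B.LC x a b c ∧ i ≤ B.d x a ∧ j ≤ B.d x b ∧ k ≤ B.d x c := by
  obtain ⟨_, ⟨x, rfl⟩, h0⟩ := Int.exists_least_of_bdd
    (P := fun z => ∃ x, pot (B.d x a - i + 1) (B.d x b - j + 1) (B.d x c - k + 1) = z)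
    ⟨0, by rintro _ ⟨y, rfl⟩; exact pot_nonneg _ _ _⟩ ⟨_, x0, rfl⟩
  have h := fun y => h0 _ ⟨y, rfl⟩
  have hji : B.d b a < j + i := by have := B.symm a b; omega
  have hki : B.d c a < k + i := by have := B.symm a c; omega
  have hkj : B.d c b < k + j := by have := B.symm b c; omega
  have e1 := bal hi hij h
  have e2 := bal (x := x) (c := b) (k := j) hi hik fun y =>
    (pot23 _ _ _).trans_le ((h y).trans_eq (pot23 _ _ _))
  have e3 := bal (x := x) (c := c) (k := k) hj hji fun y =>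
    (pot12 _ _ _).trans_le ((h y).trans_eq (pot12 _ _ _))
  have e4 := bal (x := x) (c := a) (k := i) hj hjk fun y =>
    ((pot23 _ _ _).trans (pot12 _ _ _)).trans_le
      ((h y).trans_eq ((pot12 _ _ _).trans (pot23 _ _ _)))
  have e5 := bal (x := x) (c := b) (k := j) hk hki fun y =>
    ((pot12 _ _ _).trans (pot23 _ _ _)).trans_le
      ((h y).trans_eq ((pot23 _ _ _).trans (pot12 _ _ _)))
  have e6 := bal (x := x) (c := a) (k := i) hk hkj fun y =>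
    (((pot12 _ _ _).trans (pot23 _ _ _)).trans (pot12 _ _ _)).trans_le
      ((h y).trans_eq (((pot12 _ _ _).trans (pot23 _ _ _)).trans (pot12 _ _ _)))
  obtain ⟨b1, b2, b3, b4, b5, b6, b7, b8, b9⟩ := bal_fin (i := B.d x a - i) (j := B.d x b - j)
    (k := B.d x c - k) (fun h1 h2 h3 => by have := e1 (by omega) h2 h3; omega)
    (fun h1 h2 h3 => by have := e2 (by omega) h2 h3; omega)
    (fun h1 h2 h3 => by have := e3 (by omega) h2 h3; omega)
    (fun h1 h2 h3 => by have := e4 (by omega) h2 h3; omega)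
    (fun h1 h2 h3 => by have := e5 (by omega) h2 h3; omega)
    (fun h1 h2 h3 => by have := e6 (by omega) h2 h3; omega) (by have := he x; omega)
  clear e1 e2 e3 e4 e5 e6
  refine ⟨x, ⟨by omega, by omega, by omega, fun n hn => ?_⟩, by omega⟩
  by_contra h4
  have := lip3 hn a b c
  exact absurd (h n) (not_le.2 (pot_lt (by omega) (by omega) (by omega) (by omega) (by omega)
    (by omega) (by omega) (by omega) (by omega) (by omega) (by omega) (by omega) (by omega)))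

lemma both {p q : V} (hp : B.d p x ≤ 1) (hq : B.d q x ≤ 1) (h : B.d p q ≤ 1)
    (h1 : B.d p a = B.d x a) (h2 : B.d q a = B.d x a) (h0 : 0 < B.d x a) :
    ∃ s, B.d s p ≤ 1 ∧ B.d s q ≤ 1 ∧ B.d s x ≤ 1 ∧ B.d s a + 1 = B.d x a := by
  obtain ⟨s, s1, s2, s3⟩ := low hp h1.le h0
  obtain ⟨t, t1, t2, t3⟩ := low hq h2.le h0
  rcases p4 s2 h (sy t2) (B.qc t1 s1 t3 s3) with k | k
  · exact ⟨s, s2, k, s1, s3⟩
  · exact ⟨t, sy k, t2, t1, t3⟩

/-- One face of the first sun configuration. -/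
lemma sun0 {p q r s t : V} (hp : B.d p x ≤ 1) (hq : B.d q x ≤ 1) (hr : B.d r x ≤ 1)
    (pq : B.d p q ≤ 1) (pr : B.d p r ≤ 1) (qr : B.d q r ≤ 1) (pa : B.d p a ≤ B.d x a)
    (pb : B.d p b ≤ B.d x b) (qa : B.d q a ≤ B.d x a) (qb : B.d x b < B.d q b)
    (ra : B.d x a < B.d r a) (rb : B.d r b ≤ B.d x b) (hs : B.d s x ≤ 1) (ht : B.d t x ≤ 1)
    (st : B.d s t ≤ 1) (sa : B.d s a + 1 = B.d x a) (tb : B.d t b + 1 = B.d x b) :
    B.d p s ≤ 1 ∨ B.d p t ≤ 1 := by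
  have := lip pr a; have := lip qr a; have := lip pq b; have := lip qr b
  have := B.nonneg s a; have := B.nonneg t b; have := lip hr a; have := lip hq b
  obtain ⟨u, u1, u2, u3, u4⟩ := both (a := a) hp hq pq (by omega) (by omega) (by omega)
  obtain ⟨v, v1, v2, v3, v4⟩ := both (a := b) hp hr pr (by omega) (by omega) (by omega)
  have uv : ¬ B.d u v ≤ 1 := fun h => by
    rcases p4 h v2 (sy qr) (sy u2) with k | k
    · have := lip k a; omega
    · have := lip k b; omega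
  rcases B.p5 (B.qc u3 hs u4 sa) st (B.qc ht v3 tb v4) v1 (sy u1) with
    ⟨k1, k2⟩ | ⟨k1, k2⟩ | ⟨k1, k2⟩ | ⟨k1, k2⟩ | ⟨k1, k2⟩
  · exact absurd k2 uv
  · exact Or.inl (sy k2)
  · exact Or.inr (sy k1)
  · exact absurd (sy k1) uv
  · exact Or.inl k1

lemma sun1 {p q r z : V} (hp : B.d p x ≤ 1) (hq : B.d q x ≤ 1) (hr : B.d r x ≤ 1)
    (pq : B.d p q ≤ 1) (pr : B.d p r ≤ 1) (qr : B.d q r ≤ 1) (pa : B.d p a ≤ B.d x a)
    (pb : B.d p b ≤ B.d x b) (pc : B.d x c < B.d p c) (qa : B.d q a ≤ B.d x a)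
    (qb : B.d x b < B.d q b) (qc : B.d q c ≤ B.d x c) (ra : B.d x a < B.d r a)
    (rb : B.d r b ≤ B.d x b) (rc : B.d r c ≤ B.d x c) (za : B.d z a < B.d x a)
    (zb : B.d z b < B.d x b) (zc : B.d z c < B.d x c) : False := by
  obtain ⟨s, s1, s2, s3⟩ := desc za
  obtain ⟨t, t1, t2, t3⟩ := desc zb
  obtain ⟨u, u1, u2, u3⟩ := desc zc
  have st := B.qc s1 t1 s2 t2
  have su := B.qc s1 u1 s2 u2
  have tu := B.qc t1 u1 t2 u2
  have n1 : ¬ B.d p u ≤ 1 := fun k => by have := lip k c; omega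
  have n2 : ¬ B.d q t ≤ 1 := fun k => by have := lip k b; omega
  have n3 : ¬ B.d r s ≤ 1 := fun k => by have := lip k a; omega
  have e1 := sun0 hp hq hr pq pr qr pa pb qa qb ra rb s1 t1 st s3 t3
  have e2 := sun0 hq hp hr (sy pq) qr pr qa qc pa pc ra rc s1 u1 su s3 u3
  have e3 := sun0 hr hp hq (sy pr) (sy qr) pq rb rc pb pc qb qc t1 u1 tu t3 u3
  have f1 : B.d p s ≤ 1 → B.d r u ≤ 1 → False := fun k1 k2 =>
    (p4 k1 su (sy k2) (sy pr)).elim n1 fun k => n3 (sy k)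
  have f2 : B.d p t ≤ 1 → B.d q u ≤ 1 → False := fun k1 k2 =>
    (p4 k1 tu (sy k2) (sy pq)).elim n1 fun k => n2 (sy k)
  have f3 : B.d q s ≤ 1 → B.d r t ≤ 1 → False := fun k1 k2 =>
    (p4 k1 st (sy k2) (sy qr)).elim n2 fun k => n3 (sy k)
  have g1 : B.d p s ≤ 1 → B.d r t ≤ 1 → B.d p t ≤ 1 := fun k1 k2 =>
    (p4 k1 st (sy k2) (sy pr)).resolve_right fun k => n3 (sy k)
  have g2 : B.d p t ≤ 1 → B.d q s ≤ 1 → B.d p s ≤ 1 := fun k1 k2 =>
    (p4 k1 (sy st) (sy k2) (sy pq)).resolve_right fun k => n2 (sy k)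
  tauto

lemma helly {ι : Type} (x0 : V) (y : ι → V) (r : ι → ℤ)
    (h3 : ∀ i j k, ∃ z, B.d z (y i) ≤ r i ∧ B.d z (y j) ≤ r j ∧ B.d z (y k) ≤ r k)
    (s : Finset ι) : ∃ x, ∀ i ∈ s, B.d x (y i) ≤ r i + 1 := by
  classical
  induction s using Finset.induction_on with
  | empty => exact ⟨x0, by simp⟩
  | insert n s _ ih =>
    obtain ⟨_, ⟨x, hx, rfl⟩, h0⟩ := Int.exists_least_of_bdd
      (P := fun z => ∃ x, (∀ i ∈ s, B.d x (y i) ≤ r i + 1) ∧ B.d x (y n) = z)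
      ⟨0, by rintro _ ⟨z, -, rfl⟩; exact B.nonneg _ _⟩ (let ⟨x, hx⟩ := ih; ⟨_, x, hx, rfl⟩)
    refine ⟨x, ?_⟩
    simp only [Finset.mem_insert, forall_eq_or_imp]
    refine ⟨?_, hx⟩
    by_contra hlt
    have two : ∀ i ∈ s, ∀ j ∈ s, ∃ p, (B.d p x ≤ 1 ∧ B.d p (y n) + 1 = B.d x (y n)) ∧
        B.d p (y i) ≤ r i + 1 ∧ B.d p (y j) ≤ r j + 1 := fun i hi j hj => by
      obtain ⟨z, z1, z2, z3⟩ := h3 i j n
      obtain ⟨p, p1, p2, p3⟩ := desc (B := B) (x := x) (q := z) (y := y n) (by omega)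
      have : ∀ i ∈ s, B.d z (y i) ≤ r i → B.d p (y i) ≤ r i + 1 := fun i hi hz => by
        have := hx i hi
        have := lip p1 (y i)
        by_contra hc
        obtain ⟨t, t1, t2, t3⟩ := desc (B := B) (x := x) (q := z) (y := y i) (by omega)
        have := lip (B.qc p1 t1 p2 t2) (y i)
        omega
      exact ⟨p, ⟨p1, p3⟩, this i hi z1, this j hj z2⟩
    have all : ∀ t : Finset ι, t ⊆ s → ∃ p, (B.d p x ≤ 1 ∧ B.d p (y n) + 1 = B.d x (y n)) ∧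
        ∀ i ∈ t, B.d p (y i) ≤ r i + 1 := fun t => by
      induction t using Finset.strongInduction with
      | H t ih =>
        intro ht
        by_cases hc : 2 < t.card
        · obtain ⟨i, j, k, hi, hj, hk, ij, ik, jk⟩ := Finset.two_lt_card_iff.1 hc
          obtain ⟨p, p1, p2⟩ := ih _ (Finset.erase_ssubset hk) ((t.erase_subset k).trans ht)
          obtain ⟨q, q1, q2⟩ := ih _ (Finset.erase_ssubset hj) ((t.erase_subset j).trans ht)
          obtain ⟨u, u1, u2⟩ := ih _ (Finset.erase_ssubset hi) ((t.erase_subset i).trans ht)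
          simp only [Finset.mem_erase, and_imp] at p2 q2 u2
          by_cases c1 : B.d p (y k) ≤ r k + 1
          · exact ⟨p, p1, fun l hl => if h : l = k then h ▸ c1 else p2 l h hl⟩
          by_cases c2 : B.d q (y j) ≤ r j + 1
          · exact ⟨q, q1, fun l hl => if h : l = j then h ▸ c2 else q2 l h hl⟩
          by_cases c3 : B.d u (y i) ≤ r i + 1
          · exact ⟨u, u1, fun l hl => if h : l = i then h ▸ c3 else u2 l h hl⟩
          obtain ⟨z, z1, z2, z3⟩ := h3 i j k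
          have := hx i (ht hi); have := hx j (ht hj); have := hx k (ht hk)
          have := lip p1.1 (y k); have := lip q1.1 (y j); have := lip u1.1 (y i)
          have := p2 i ik hi; have := p2 j jk hj; have := q2 i ij hi; have := q2 k jk.symm hk
          have := u2 j ij.symm hj; have := u2 k ik.symm hk
          exact (sun1 (a := y i) (b := y j) (c := y k) (z := z) p1.1 q1.1 u1.1
            (B.qc p1.1 q1.1 p1.2 q1.2) (B.qc p1.1 u1.1 p1.2 u1.2) (B.qc q1.1 u1.1 q1.2 u1.2)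
            (by omega) (by omega) (by omega) (by omega) (by omega) (by omega) (by omega)
            (by omega) (by omega) (by omega) (by omega) (by omega)).elim
        · rcases t.eq_empty_or_nonempty with rfl | ⟨i, hi⟩
          · obtain ⟨z, z1, -⟩ := h3 n n n
            have := B.nonneg z (y n)
            obtain ⟨p, p1, -, p2⟩ := B.tc (u := y n) (rf x) rfl (by omega)
            exact ⟨p, ⟨p1, p2⟩, by simp⟩
          · obtain ⟨j, hj, hij⟩ : ∃ j ∈ t, ∀ l ∈ t, l = i ∨ l = j := by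
              by_contra hn
              push Not at hn
              obtain ⟨j, hj, h1, -⟩ := hn i hi
              obtain ⟨k, hk, h2, h3⟩ := hn j hj
              exact hc (Finset.two_lt_card_iff.2 ⟨i, j, k, hi, hj, hk, h1.symm, h2.symm, h3.symm⟩)
            obtain ⟨p, p1, p2, p3⟩ := two i (ht hi) j (ht hj)
            exact ⟨p, p1, fun l hl => (hij l hl).elim (· ▸ p2) (· ▸ p3)⟩
    obtain ⟨p, p1, p2⟩ := all s subset_rfl
    have := h0 _ ⟨p, p2, rfl⟩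
    omega

lemma LC.sun2 (h : B.LC x a b c) {p q r : V} (hp : B.d p x ≤ 1) (hq : B.d q x ≤ 1)
    (hr : B.d r x ≤ 1) (pq : B.d p q ≤ 1) (pr : B.d p r ≤ 1) (qr : B.d q r ≤ 1)
    (pa : B.d p a ≤ B.d x a) (pb : B.d p b ≤ B.d x b) (pc : B.d x c < B.d p c)
    (qa : B.d q a ≤ B.d x a) (qb : B.d x b < B.d q b) (qc : B.d q c ≤ B.d x c)
    (ra : B.d x a < B.d r a) (rb : B.d r b ≤ B.d x b) (rc : B.d r c ≤ B.d x c) : False := by
  obtain ⟨h2, h3, ⟨a2, a3, a23, b2, b3⟩, c2, c3⟩ := h.pairAdj hp pa pb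
  obtain ⟨h4, h5, ⟨a4, a5, a45, b4, b5⟩, c4, c5⟩ := h.s12.s23.pairAdj hr rb rc
  obtain ⟨h1, h6, ⟨a1, a6, a16, b1, b6⟩, c1, c6⟩ := h.s23.pairAdj hq qa qc
  rcases p4 c3 (B.qc a3 a4 b3.2.1 b4.1) (sy c4) (sy pr) with k | k
  · rcases B.p5 k a45 (B.qc a5 a6 b5.2.1 b6.2.1) (sy c6) (sy pq) with
      ⟨k1, k2⟩ | ⟨k1, k2⟩ | ⟨k1, k2⟩ | ⟨k1, k2⟩ | ⟨k1, k2⟩ <;>
    · have := lip3 k1 a b c; have := lip3 k2 a b c; omega
  · rcases B.p5 (sy k) (sy a23) (B.qc a2 a1 b2.1 b1.1) (sy c1) qr with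
      ⟨k1, k2⟩ | ⟨k1, k2⟩ | ⟨k1, k2⟩ | ⟨k1, k2⟩ | ⟨k1, k2⟩ <;>
    · have := lip3 k1 a b c; have := lip3 k2 a b c; omega

lemma two {q y : V} (hy : B.d q y < B.d x y) (ha : B.d q a < B.d x a) (hb : B.d q b < B.d x b) :
    ∃ p, B.d p x ≤ 1 ∧ B.d p y + 1 = B.d x y ∧ B.d p a ≤ B.d x a ∧ B.d p b ≤ B.d x b := by
  obtain ⟨p, p1, p2, p3⟩ := desc hy
  obtain ⟨s, s1, s2, s3⟩ := desc ha
  obtain ⟨t, t1, t2, t3⟩ := desc hb
  have := lip (B.qc p1 s1 p2 s2) a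
  have := lip (B.qc p1 t1 p2 t2) b
  exact ⟨p, p1, p3, by omega, by omega⟩

lemma LC.twinP (h : B.LC x a b c) {y p q r : V} (p1 : B.d p y < B.d x y) (p2 : B.d p a < B.d x a)
    (p3 : B.d p b < B.d x b) (q1 : B.d q y < B.d x y) (q2 : B.d q a < B.d x a)
    (q3 : B.d q c < B.d x c) (r1 : B.d r y < B.d x y) (r2 : B.d r b < B.d x b)
    (r3 : B.d r c < B.d x c) : ∃ n, B.Tw x a b c n ∧ B.d n y + 1 = B.d x y := by
  obtain ⟨s, s1, s2, s3, s4⟩ := two p1 p2 p3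
  obtain ⟨t, t1, t2, t3, t4⟩ := two q1 q2 q3
  obtain ⟨u, u1, u2, u3, u4⟩ := two r1 r2 r3
  have := h.min s s1; have := h.min t t1; have := h.min u u1
  by_cases c1 : B.d s c ≤ B.d x c
  · exact ⟨s, ⟨s1, by omega⟩, s2⟩
  by_cases c2 : B.d t b ≤ B.d x b
  · exact ⟨t, ⟨t1, by omega⟩, t2⟩
  by_cases c3 : B.d u a ≤ B.d x a
  · exact ⟨u, ⟨u1, by omega⟩, u2⟩
  exact (h.sun2 s1 t1 u1 (B.qc s1 t1 s2 t2) (B.qc s1 u1 s2 u2) (B.qc t1 u1 t2 u2) s3 s4
    (by omega) t3 (by omega) t4 (by omega) u3 u4).elim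

/-- A fourth direction cannot be approached together with each pair of a flat triple. -/
lemma LC.four (h : B.LC x a b c) {y p q r : V} (p1 : B.d p y + 1 < B.d x y)
    (p2 : B.d p a < B.d x a) (p3 : B.d p b < B.d x b) (q1 : B.d q y + 1 < B.d x y)
    (q2 : B.d q a < B.d x a) (q3 : B.d q c < B.d x c) (r1 : B.d r y + 1 < B.d x y)
    (r2 : B.d r b < B.d x b) (r3 : B.d r c < B.d x c) : False := by
  obtain ⟨n, hn, n1⟩ := h.twinP (y := y) (by omega) p2 p3 (by omega) q2 q3 (by omega) r2 r3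
  have h' := h.mvtw hn
  have ⟨_, n2, n3, n4⟩ := hn
  obtain ⟨m, hm, m1⟩ := h'.twinP (y := y) (p := p) (q := q) (r := r) (by omega) (by omega)
    (by omega) (by omega) (by omega) (by omega) (by omega) (by omega) (by omega)
  obtain ⟨s, -, s1, -, -, s2, -⟩ := h'.s23.pair
  obtain ⟨t, -, t1, -, -, t2, -⟩ := h'.s12.s23.pair
  rcases p4 (h'.tw hn.symm s1 s2.1 s2.2.1) (sy (h'.tw hm s1 s2.1 s2.2.1))
    (h'.s12.tw hm.s12 t1 t2.1 t2.2.1) (sy (h'.s12.tw hn.symm.s12 t1 t2.1 t2.2.1)) with k | k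
  · have := lip k y; omega
  · have := lip k a; omega

lemma LC.pat (h : B.LC x a b c) {y p q : V} (p1 : B.d p x ≤ 1) (pa : B.d p a = B.d x a + 1)
    (pb : B.d p b + 1 = B.d x b) (pc : B.d p c = B.d x c) (q1 : B.d q x ≤ 1)
    (qa : B.d q a + 1 = B.d x a) (qb : B.d q b = B.d x b + 1) (qc : B.d q c = B.d x c)
    (py : B.d p y = B.d x y) (qy : B.d q y + 1 = B.d x y) :
    ∃ n, B.Tw x a b c n ∧ B.d n p ≤ 1 ∧ B.d n y + 1 = B.d x y := by
  have := B.nonneg q y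
  obtain ⟨n, n1, n2, n3⟩ := B.tc p1 py (by omega)
  have n4 := B.qc (u := y) n2 q1 (by omega) qy
  have := lip3 n1 a b c; have := lip3 n4 a b c; have := h.min n n2
  obtain ⟨s, s1, s2, s3⟩ := low p1 pc.le h.pos.2.2
  obtain ⟨t, t1, t2, t3⟩ := low q1 qc.le h.pos.2.2
  refine ⟨n, ⟨n2, by omega, by omega, ?_⟩, n1, by omega⟩
  rcases B.p5 n1 (sy s2) (B.qc s1 t1 s3 t3) t2 (sy n4) with
    ⟨k1, k2⟩ | ⟨k1, k2⟩ | ⟨k1, k2⟩ | ⟨k1, k2⟩ | ⟨k1, k2⟩ <;>
  · have := lip3 k1 a b c; have := lip3 k2 a b c; omega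

lemma LC.ray {y : V} : ∀ (m : ℕ) {x : V}, B.LC x a b c → B.d a c + m < B.d x a + B.d x c →
    (∀ z, B.LC z a b c → B.d z a + m = B.d x a → B.d z b = B.d x b + m → B.d z c = B.d x c →
      B.d z y < B.d x y) → ∃ p, B.d p x ≤ 1 ∧ B.d p a + 1 = B.d x a ∧ B.d p b = B.d x b + 1 ∧
        B.d p c = B.d x c ∧ B.d p y + 1 = B.d x y
  | 0, x, h, _, H => absurd (H x h (by simp) (by simp) rfl) (lt_irrefl _)
  | m + 1, x, h, h1, H => by
    obtain ⟨p, p1, p2, p3, p4, p5⟩ := h.s23.step (by omega)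
    by_cases c1 : B.d p y + 1 = B.d x y
    · exact ⟨p, p1, p3, p5, p4, c1⟩
    have := lip p1 y
    obtain ⟨q, q1, q2, q3, q4, q5⟩ := LC.ray (y := y) m p2.s23 (by omega) fun z hz h2 h3 h4 => by
      have := H z hz (by omega) (by omega) (by omega); omega
    by_cases c2 : B.d p y = B.d x y
    · obtain ⟨n, ⟨n1, n2, n3, n4⟩, n5, n6⟩ := p2.s23.pat (y := y) (sy p1) (by omega) (by omega)
        (by omega) q1 q2 q3 q4 c2.symm q5
      exact ⟨n, n5, by omega, by omega, by omega, by omega⟩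
    · have := lip (B.qc (u := y) (sy p1) q1 (by omega) q5) a
      omega

/-- Replacing the first direction. -/
lemma LC.replace (h : B.LC x a b c) {y : V} (m : ℕ) (h1 : B.d a c + m < B.d x a + B.d x c)
    (h2 : B.d a b + m < B.d x a + B.d x b)
    (H1 : ∀ z, B.LC z a b c → B.d z a + m = B.d x a → B.d z b = B.d x b + m →
      B.d z c = B.d x c → B.d z y + 1 < B.d x y)
    (H2 : ∀ z, B.LC z a b c → B.d z a + m = B.d x a → B.d z b = B.d x b →
      B.d z c = B.d x c + m → B.d z y + 1 < B.d x y) : B.LC x y b c := by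
  obtain ⟨p, p1, p2, p3, p4, p5⟩ := h.ray (y := y) m h1 fun z hz a1 a2 a3 => by
    have := H1 z hz a1 a2 a3; omega
  obtain ⟨q, q1, q2, q3, q4, q5⟩ := h.s23.ray (y := y) m h2 fun z hz a1 a2 a3 => by
    have := H2 z hz.s23 a1 a3 a2; omega
  have no : ∀ n, B.Tw x a b c n → B.d n y + 1 ≠ B.d x y := fun n hn hy => by
    have ⟨_, n2, n3, n4⟩ := hn
    obtain ⟨s, s1, s2, s3, s4, s5⟩ := (h.mvtw hn).ray (y := y) m (by omega)
      fun z hz a1 a2 a3 => by have := H1 z hz (by omega) (by omega) (by omega); omega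
    have := lip ((h.mvtw hn).tw hn.symm s1 s2 s4) y
    omega
  have := B.tri y q b; have := B.tri y p c; have := B.symm y q; have := B.symm y p
  refine ⟨by omega, by omega, h.bc, fun n hn => ?_⟩
  by_contra hlt
  have := h.min n hn
  have := lip3 hn a b c
  have := lip hn y
  by_cases c1 : B.d n y + 1 = B.d x y
  · have := lip3 (B.qc hn p1 c1 p5) a b c
    have := lip3 (B.qc hn q1 c1 q5) a b c
    exact no n ⟨hn, by omega⟩ c1
  by_cases c2 : B.d n c = B.d x c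
  · obtain ⟨s, s1, -, s2⟩ := h.pat (y := y) hn (by omega) (by omega) c2 p1 p2 p3 p4 (by omega) p5
    exact no s s1 s2
  · obtain ⟨s, s1, -, s2⟩ := h.s23.pat (y := y) hn (by omega) (by omega) (by omega) q1 q2 q3 q4
      (by omega) q5
    exact no s s1.s23 s2

end Br

end Pool.Agent.Lib.MP_63c928_gt.SY
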