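import Pool.Agent.Lib.MP_63c928_gt.SY.G2

/-! The potential of flat triples on extremal functions; finiteness of local types. -/

namespace Pool.Agent.Lib.MP_63c928_gt.SY

namespace Br

variable {V : Type} {B : Br V} {x a b c : V} {f : V → ℝ}

lemma LC.fourth (h : B.LC x a b c) {y : V} (hy : 2 ≤ B.d x y)
    (ha : B.d y a + 3 < B.d x y + B.d x a) (hb : B.d y b + 3 < B.d x y + B.d x b)
    (hc : B.d y c + 3 < B.d x y + B.d x c) (hab : B.d a b + 2 < B.d x a + B.d x b)
    (hac : B.d a c + 2 < B.d x a + B.d x c) (hbc : B.d b c + 2 < B.d x b + B.d x c) :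
    (∃ z, B.LC z y a b ∧ B.d x y - 2 ≤ B.d z y ∧ B.d x a - 1 ≤ B.d z a ∧ B.d x b - 1 ≤ B.d z b) ∨
    (∃ z, B.LC z y a c ∧ B.d x y - 2 ≤ B.d z y ∧ B.d x a - 1 ≤ B.d z a ∧ B.d x c - 1 ≤ B.d z c) ∨
    (∃ z, B.LC z y b c ∧ B.d x y - 2 ≤ B.d z y ∧ B.d x b - 1 ≤ B.d z b ∧
      B.d x c - 1 ≤ B.d z c) := by
  have hp := h.pos
  by_cases c1 : ∀ z, B.d x y - 2 < B.d z y ∨ B.d x a - 1 < B.d z a ∨ B.d x b - 1 < B.d z b
  · exact Or.inl (empty x (by omega) (by omega) (by omega) (by omega) (by omega) (by omega) c1)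
  by_cases c2 : ∀ z, B.d x y - 2 < B.d z y ∨ B.d x a - 1 < B.d z a ∨ B.d x c - 1 < B.d z c
  · exact Or.inr (Or.inl
      (empty x (by omega) (by omega) (by omega) (by omega) (by omega) (by omega) c2))
  by_cases c3 : ∀ z, B.d x y - 2 < B.d z y ∨ B.d x b - 1 < B.d z b ∨ B.d x c - 1 < B.d z c
  · exact Or.inr (Or.inr
      (empty x (by omega) (by omega) (by omega) (by omega) (by omega) (by omega) c3))
  push Not at c1 c2 c3
  obtain ⟨p, p1⟩ := c1
  obtain ⟨q, q1⟩ := c2
  obtain ⟨r, r1⟩ := c3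
  exact (h.four (y := y) (p := p) (q := q) (r := r) (by omega) (by omega) (by omega) (by omega)
    (by omega) (by omega) (by omega) (by omega) (by omega)).elim

variable (B) in
/-- Admissible functions. -/
def Adm (f : V → ℝ) : Prop := ∀ x y, (B.d x y : ℝ) ≤ f x + f y

variable (B) in
/-- The value of a triple. -/
def val (f : V → ℝ) (x a b c : V) : ℝ := (B.d x a + B.d x b + B.d x c : ℤ) - f a - f b - f c

lemma Adm.nonneg (hf : B.Adm f) (x : V) : 0 ≤ f x := by
  have := hf x x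
  rw [B.refl] at this
  push_cast at this
  linarith

lemma ilt {i j : ℤ} (h : (i : ℝ) < j) : i < j := by exact_mod_cast h

lemma LC.far (h : B.LC x a b c) (h1 : B.d a b < B.d x b) (h2 : B.d a c < B.d x c) : False := by
  have := h.pos
  have := h.bc
  obtain ⟨m, -, m1, m2, -⟩ := h.reach (i := 0) (j := B.d x b + B.d x a) (k := B.d x c)
    (by omega) (by omega) (by omega) (by omega)
  obtain rfl := B.eq m1.le
  omega

lemma val_le (hf : B.Adm f) (h : B.LC x a b c) (o : V) : B.val f x a b c ≤ 3 * f o + 12 := by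
  by_contra hlt
  unfold val at hlt
  have j1 := Int.floor_le (f b + f o + 4)
  have j2 := Int.lt_floor_add_one (f b + f o + 4)
  have k1 := Int.floor_le (f c + f o + 4)
  have k2 := Int.lt_floor_add_one (f c + f o + 4)
  generalize ⌊f b + f o + 4⌋ = j at *
  generalize ⌊f c + f o + 4⌋ = k at *
  have := hf.nonneg o
  have := hf a b; have := hf a c; have := hf b c; have := hf o a; have := hf o b; have := hf o c
  push_cast at hlt
  obtain ⟨m, m0, m1, m2, m3⟩ := h.reach (i := B.d x a + B.d x b + B.d x c - j - k) (j := j)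
    (k := k) (by ring) (ilt (by push_cast; linarith)) (ilt (by push_cast; linarith))
    (ilt (by push_cast; linarith))
  have a1 : B.d o a + 3 < B.d m a := ilt (by rw [m1]; push_cast; linarith)
  have a2 : B.d o b + 3 < B.d m b := ilt (by rw [m2]; push_cast; linarith)
  have a3 : B.d o c + 3 < B.d m c := ilt (by rw [m3]; push_cast; linarith)
  have := B.tri m o a
  rcases m0.fourth (y := o) (by omega) (by omega) (by omega) (by omega)
    (ilt (by rw [m1, m2]; push_cast; linarith)) (ilt (by rw [m1, m3]; push_cast; linarith))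
    (ilt (by rw [m2, m3]; push_cast; linarith)) with ⟨z, z0, z1⟩ | ⟨z, z0, z1⟩ | ⟨z, z0, z1⟩ <;>
  exact z0.far (by omega) (by omega)

lemma cb (hf : B.Adm f) {M : ℝ} (hM : ∀ x a b c, B.LC x a b c → B.val f x a b c ≤ M)
    (h : B.LC x a b c) (hv : B.val f x a b c = M) {F : ℝ} (ha : 2 ≤ B.d x a - f a)
    (hb : 2 ≤ B.d x b - f b) (hc : 2 ≤ B.d x c - f c) (ha' : B.d x a - f a ≤ F)
    (hb' : B.d x b - f b ≤ F) (hc' : B.d x c - f c ≤ F) (y : V) : B.d x y - f y ≤ F + 4 := by
  by_contra hlt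
  have := hf.nonneg y
  have := hf a b; have := hf a c; have := hf b c; have := hf y a; have := hf y b; have := hf y c
  unfold val at hv hM
  push_cast at hv hM
  rcases h.fourth (y := y) (ilt (i := 2) (by push_cast; linarith)).le
    (ilt (by push_cast; linarith)) (ilt (by push_cast; linarith)) (ilt (by push_cast; linarith))
    (ilt (by push_cast; linarith)) (ilt (by push_cast; linarith)) (ilt (by push_cast; linarith))
    with ⟨z, z0, z1, z2, z3⟩ | ⟨z, z0, z1, z2, z3⟩ | ⟨z, z0, z1, z2, z3⟩ <;>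
  · have := hM _ _ _ _ z0
    have z1 := (Int.cast_le (R := ℝ)).2 z1
    have z2 := (Int.cast_le (R := ℝ)).2 z2
    have z3 := (Int.cast_le (R := ℝ)).2 z3
    push_cast at z1 z2 z3
    linarith

lemma sr (hf : B.Adm f) {M : ℝ} (hM : ∀ x a b c, B.LC x a b c → B.val f x a b c ≤ M)
    (h20 : 20 ≤ M) (h : B.LC x a b c) (hv : B.val f x a b c = M) :
    ∃ z, ∀ y, f z + f y = B.d z y → B.LC z y b c ∧ B.val f z y b c = M := by
  have j1 := Int.le_ceil (f b + 2)
  have j2 := Int.ceil_lt_add_one (f b + 2)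
  have k1 := Int.le_ceil (f c + 2)
  have k2 := Int.ceil_lt_add_one (f c + 2)
  generalize ⌈f b + 2⌉ = j at *
  generalize ⌈f c + 2⌉ = k at *
  have := hf a b; have := hf a c; have := hf b c
  have hv' := hv
  unfold val at hv'
  push_cast at hv'
  obtain ⟨z, z0, z1, z2, z3⟩ := h.reach (i := B.d x a + B.d x b + B.d x c - j - k) (j := j)
    (k := k) (by ring) (ilt (by push_cast; linarith)) (ilt (by push_cast; linarith))
    (ilt (by push_cast; linarith))
  have z1' := congrArg (Int.cast (R := ℝ)) z1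
  have z2' := congrArg (Int.cast (R := ℝ)) z2
  have z3' := congrArg (Int.cast (R := ℝ)) z3
  push_cast at z1'
  refine ⟨z, fun y hy => ?_⟩
  have := hf z a
  have key : ∀ w, B.LC w a b c → B.d w a + 6 = B.d z a → B.d z b ≤ B.d w b →
      B.d z c ≤ B.d w c → B.d w b + B.d w c = B.d z b + B.d z c + 6 →
      B.d w y + 1 < B.d z y := fun w w0 w1 w2 w3 w4 => by
    have w1 := congrArg (Int.cast (R := ℝ)) w1
    have w4 := congrArg (Int.cast (R := ℝ)) w4
    have w2 := (Int.cast_le (R := ℝ)).2 w2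
    have w3 := (Int.cast_le (R := ℝ)).2 w3
    push_cast at w1 w4
    have m1 := le_max_left (B.d z a - f a - 6) 9
    have m2 := le_max_right (B.d z a - f a - 6) 9
    have m3 : max (B.d z a - f a - 6) 9 < B.d z a - f a - 5 := max_lt (by linarith) (by linarith)
    have := cb hf hM w0 (by unfold val; push_cast; linarith) (F := max (B.d z a - f a - 6) 9)
      (by linarith) (by linarith) (by linarith) (by linarith) (by linarith) (by linarith) y
    exact ilt (by push_cast; linarith)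
  have hl : B.LC z y b c := z0.replace 6 (ilt (by push_cast; linarith))
    (ilt (by push_cast; linarith))
    (fun w w0 w1 w2 w3 => key w w0 w1 (by omega) (by omega) (by omega))
    (fun w w0 w1 w2 w3 => key w w0 w1 (by omega) (by omega) (by omega))
  refine ⟨hl, le_antisymm (hM _ _ _ _ hl) ?_⟩
  unfold val
  push_cast
  linarith

variable (B) in
lemma ball (k : ℕ) : ∃ M : ℕ, ∀ o, ∃ s : Finset V, s.card ≤ M ∧ ∀ y, B.d y o ≤ k → y ∈ s := by
  classical
  obtain ⟨N, hN⟩ := B.deg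
  choose t t1 t2 using hN
  induction k with
  | zero => exact ⟨1, fun o => ⟨{o}, by simp, fun y hy => by simpa using B.eq hy⟩⟩
  | succ k ih =>
    obtain ⟨M, hM⟩ := ih
    refine ⟨M * N, fun o => ?_⟩
    obtain ⟨s, s1, s2⟩ := hM o
    refine ⟨s.biUnion t, (Finset.card_biUnion_le_card_mul _ _ N fun x _ => t1 x).trans
      (Nat.mul_le_mul_right _ s1), fun y hy => Finset.mem_biUnion.2 ?_⟩
    by_cases h : B.d y o ≤ k
    · exact ⟨y, s2 y h, t2 _ _ (rf y)⟩
    · obtain ⟨p, p1, -, p2⟩ := B.tc (u := o) (rf y) rfl (by omega)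
      exact ⟨p, s2 p (by omega), t2 _ _ (sy p1)⟩

variable (B) in
/-- Extremal functions. -/
def Ext (f : V → ℝ) : Prop := B.Adm f ∧ ∀ x, ∀ ε > 0, ∃ y, f x + f y < B.d x y + ε

lemma near (x0 : V) (hf : B.Ext f) (hM : ∀ x a b c, B.LC x a b c → B.val f x a b c ≤ 20) :
    ∃ o, f o < 10 := by
  classical
  by_contra hc
  push Not at hc
  have fl : ∀ y, (⌊f y⌋ : ℝ) ≤ f y ∧ f y < ⌊f y⌋ + 1 ∧ 0 ≤ ⌊f y⌋ := fun y =>
    ⟨Int.floor_le _, Int.lt_floor_add_one _, Int.floor_nonneg.2 (hf.1.nonneg y)⟩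
  have h3 : ∀ i j k, ∃ z, B.d z i ≤ ⌊f i⌋ + 8 ∧ B.d z j ≤ ⌊f j⌋ + 8 ∧ B.d z k ≤ ⌊f k⌋ + 8 := by
    intro i j k
    by_contra hn
    have := fl i; have := fl j; have := fl k
    have := hf.1 i j; have := hf.1 i k; have := hf.1 j k
    obtain ⟨z, z0, z1, z2, z3⟩ := empty (B := B) (a := i) (b := j) (c := k) x0 (i := ⌊f i⌋ + 8)
      (j := ⌊f j⌋ + 8) (k := ⌊f k⌋ + 8) (by omega) (by omega) (by omega)
      (ilt (by push_cast; linarith)) (ilt (by push_cast; linarith)) (ilt (by push_cast; linarith))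
      fun y => by by_contra h; exact hn ⟨y, by omega⟩
    have := hM _ _ _ _ z0
    have z1 := (Int.cast_le (R := ℝ)).2 z1
    have z2 := (Int.cast_le (R := ℝ)).2 z2
    have z3 := (Int.cast_le (R := ℝ)).2 z3
    unfold val at this
    push_cast at z1 z2 z3 this
    linarith
  choose y hy using fun x => hf.2 x 1 one_pos
  obtain ⟨_, hs⟩ := B.ball (⌊f x0⌋ + 9).toNat
  obtain ⟨s, -, hs⟩ := hs x0
  obtain ⟨x, hx⟩ := helly x0 id (fun i => ⌊f i⌋ + 8) h3 (insert x0 (s.image y))
  have h1 := hx x0 (Finset.mem_insert_self _ _)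
  have h2 := hx (y x) (Finset.mem_insert_of_mem (Finset.mem_image_of_mem _ (hs x (by
    simp only [id] at h1; omega))))
  have h2 := (Int.cast_le (R := ℝ)).2 h2
  have := hy x; have := hc x; have := fl (y x)
  simp only [id] at h2
  push_cast at h2
  linarith

variable (B) in
lemma types (x0 : V) (k : ℕ) : ∃ n : ℕ, ∀ o, ∃ s : Fin n → V, ∀ x, ∃ i, ∀ w, B.d w o ≤ k →
    B.d (s i) w - B.d (s i) o = B.d x w - B.d x o := by
  classical
  obtain ⟨M, hM⟩ := B.ball k
  refine ⟨Fintype.card (Fin M → Set.Icc (-(k : ℤ)) k), fun o => ?_⟩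
  obtain ⟨t, t1, t2⟩ := hM o
  obtain ⟨e, he⟩ : ∃ e : Fin M → V, ∀ w ∈ t, ∃ j, e j = w :=
    ⟨fun j => if h : (j : ℕ) < t.card then (t.equivFin.symm ⟨j, h⟩ : V) else o, fun w hw =>
      ⟨⟨t.equivFin ⟨w, hw⟩, lt_of_lt_of_le (Fin.is_lt _) t1⟩, by simp⟩⟩
  let θ : V → Fin M → Set.Icc (-(k : ℤ)) k := fun x j =>
    if h : B.d (e j) o ≤ k then ⟨B.d x (e j) - B.d x o, by
      have := B.tri x o (e j); have := B.tri x (e j) o; have := B.symm o (e j)
      constructor <;> omega⟩ else ⟨0, by simp⟩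
  have : Nonempty V := ⟨x0⟩
  refine ⟨fun i => Function.invFun θ ((Fintype.equivFin _).symm i), fun x =>
    ⟨Fintype.equivFin _ (θ x), fun w hw => ?_⟩⟩
  obtain ⟨j, rfl⟩ := he w (t2 w hw)
  have := congrFun (Function.invFun_eq (f := θ) ⟨x, rfl⟩) j
  simpa [θ, hw] using this

lemma near_int {y : V} : ∀ (k : ℕ) {o : V}, B.d x o + B.d o y ≤ B.d x y + k →
    ∃ w, B.d x w + B.d w y = B.d x y ∧ B.d w o ≤ k
  | 0, o, h => ⟨o, by have := B.tri x o y; omega, by have := B.refl o; omega⟩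
  | k + 1, o, h => by
    by_cases h1 : B.d x o + B.d o y ≤ B.d x y
    · exact ⟨o, by have := B.tri x o y; omega, by have := B.refl o; omega⟩
    have := B.symm x o
    obtain ⟨p, q, p1, -, p2, p3, p4⟩ := nb' (B := B) (x := o) (y := x) (y' := y) (by omega)
    have := lip p2 y; have := B.symm x p
    obtain ⟨w, w1, w2⟩ := near_int (y := y) k (o := p) (by omega)
    have := B.tri w p o
    exact ⟨w, w1, by omega⟩

lemma Ext.type (hf : B.Ext f) {o x x' : V} {r : ℕ} (hr : f o ≤ r)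
    (h : ∀ w, B.d w o ≤ (2 * r + 2 : ℕ) → B.d x' w - B.d x' o = B.d x w - B.d x o) :
    f x - B.d x o ≤ f x' - B.d x' o := by
  refine le_of_forall_pos_le_add fun ε hε => ?_
  obtain ⟨y, hy⟩ := hf.2 x (min ε 1) (lt_min hε one_pos)
  have := min_le_left ε 1; have := min_le_right ε 1
  have := hf.1 x o; have := hf.1 o y; have := hf.1 x' y
  obtain ⟨w, w1, w2⟩ := near_int (B := B) (x := x) (y := y) (2 * r + 1) (o := o)
    (ilt (by push_cast; linarith)).le
  have w3 := h w (by omega)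
  have w4 : B.d x' w + B.d w y ≤ B.d x' y := by
    by_contra hc
    have := B.symm x' w
    obtain ⟨p, q, p1, -, p2, p3, p4⟩ := nb' (B := B) (x := w) (y := x') (y' := y) (by omega)
    have := h p (by have := B.tri p w o; omega)
    have := lip p2 y; have := B.symm x' p; have := B.tri x p y
    omega
  have w5 : B.d x y + B.d x' o ≤ B.d x' y + B.d x o := by omega
  have w5 := (Int.cast_le (R := ℝ)).2 w5
  push_cast at w5
  linarith

variable (B) in
/-- Bounded sets of extremal functions are determined by finitely many values. -/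
lemma fin (x0 : V) (r : ℕ) : ∃ n : ℕ, ∀ o, ∃ s : Fin n → V, ∀ x, ∃ i, ∀ f, B.Ext f → f o ≤ r →
    f x - B.d x o = f (s i) - B.d (s i) o := by
  obtain ⟨n, hn⟩ := B.types x0 (2 * r + 2)
  refine ⟨n, fun o => ?_⟩
  obtain ⟨s, hs⟩ := hn o
  refine ⟨s, fun x => ?_⟩
  obtain ⟨i, hi⟩ := hs x
  exact ⟨i, fun f hf hr => le_antisymm (hf.type hr hi) (hf.type hr fun w hw => (hi w hw).symm)⟩

end Br

end Pool.Agent.Lib.MP_63c928_gt.SY
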