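import Pool.Agent.Lib.MP_63c928_gt.SY.G3

/-! The injective hull of a bridged graph: metric, properness, discreteness. -/

namespace Pool.Agent.Lib.MP_63c928_gt.SY

open Filter Topology

/-- Families of reals with finitely many fractional parts. -/
def Dis {ι : Type} (φ : ι → ℝ) : Prop := ∃ S : Set ℝ, S.Finite ∧ ∀ i, ∃ k : ℤ, φ i - k ∈ S

namespace Dis

variable {ι κ : Type} {φ ψ : ι → ℝ}

lemma add (h : Dis φ) (h' : Dis ψ) : Dis fun i => φ i + ψ i := by
  obtain ⟨S, hS, h⟩ := h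
  obtain ⟨T, hT, h'⟩ := h'
  refine ⟨_, hS.image2 (· + ·) hT, fun i => ?_⟩
  obtain ⟨k, hk⟩ := h i
  obtain ⟨l, hl⟩ := h' i
  exact ⟨k + l, _, hk, _, hl, by push_cast; ring⟩

lemma sub (h : Dis φ) (h' : Dis ψ) : Dis fun i => φ i - ψ i := by
  obtain ⟨S, hS, h⟩ := h
  obtain ⟨T, hT, h'⟩ := h'
  refine ⟨_, hS.image2 (· - ·) hT, fun i => ?_⟩
  obtain ⟨k, hk⟩ := h i
  obtain ⟨l, hl⟩ := h' i
  exact ⟨k - l, _, hk, _, hl, by push_cast; ring⟩

lemma int (k : ι → ℤ) : Dis fun i => (k i : ℝ) :=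
  ⟨{0}, Set.finite_singleton _, fun i => ⟨k i, by simp⟩⟩

lemma comp (h : Dis φ) (e : κ → ι) : Dis fun j => φ (e j) := by
  obtain ⟨S, hS, h⟩ := h
  exact ⟨S, hS, fun j => h (e j)⟩

lemma gap (h : Dis φ) (c : ℝ) : ∃ γ > 0, ∀ i, |φ i - c| < γ → φ i = c := by
  obtain ⟨S, hS, h⟩ := h
  have key : ∃ γ > 0, ∀ s ∈ S, ∀ k : ℤ, |k + s - c| < γ → k + s = c := by
    clear h
    induction S, hS using Set.Finite.induction_on with
    | empty => exact ⟨1, one_pos, by simp⟩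
    | @insert s S _ _ ih =>
      obtain ⟨γ, h0, hγ⟩ := ih
      have h1 := Int.floor_le (c - s)
      have h2 := Int.lt_floor_add_one (c - s)
      have h3 := Int.le_ceil (c - s)
      have h4 := Int.ceil_lt_add_one (c - s)
      refine ⟨min γ (min (⌊c - s⌋ + 1 - (c - s)) (c - s + 1 - ⌈c - s⌉)),
        lt_min h0 (lt_min (by linarith) (by linarith)), ?_⟩
      rintro t (rfl | ht) k hk
      · rw [lt_min_iff, lt_min_iff] at hk
        have := (abs_lt.1 hk.2.1).2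
        have := (abs_lt.1 hk.2.2).1
        have a1 : k < ⌊c - t⌋ + 1 := by exact_mod_cast (by linarith : (k : ℝ) < ⌊c - t⌋ + 1)
        have a2 : ⌈c - t⌉ < k + 1 := by exact_mod_cast (by linarith : (⌈c - t⌉ : ℝ) < k + 1)
        have a3 : (k : ℝ) ≤ ⌊c - t⌋ := by exact_mod_cast (by omega : k ≤ ⌊c - t⌋)
        have a4 : (⌈c - t⌉ : ℝ) ≤ k := by exact_mod_cast (by omega : ⌈c - t⌉ ≤ k)
        linarith
      · exact hγ t ht k (lt_of_lt_of_le hk (min_le_left _ _))
  obtain ⟨γ, h0, hγ⟩ := key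
  refine ⟨γ, h0, fun i hi => ?_⟩
  obtain ⟨k, hk⟩ := h i
  have := hγ _ hk k (by simpa using hi)
  linarith

lemma max (h : Dis φ) {p : ι → Prop} (h0 : ∃ i, p i) {c : ℝ} (hc : ∀ i, p i → φ i ≤ c) :
    ∃ i, p i ∧ ∀ j, p j → φ j ≤ φ i := by
  have hb : BddAbove (φ '' {i | p i}) := ⟨c, by rintro _ ⟨i, hi, rfl⟩; exact hc i hi⟩
  obtain ⟨γ, g0, hγ⟩ := h.gap (sSup (φ '' {i | p i}))
  obtain ⟨_, ⟨i, hi, rfl⟩, h1⟩ := exists_lt_of_lt_csSup (s := φ '' {i | p i})
    (b := sSup (φ '' {i | p i}) - γ) (Set.Nonempty.image _ h0) (by linarith)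
  have h2 := le_csSup hb ⟨i, hi, rfl⟩
  exact ⟨i, hi, fun j hj => (hγ i (abs_lt.2 ⟨by linarith, by linarith⟩)).symm ▸
    le_csSup hb ⟨j, hj, rfl⟩⟩

end Dis

namespace Br

variable {V : Type} {B : Br V} {f g : V → ℝ}

lemma rtri (x y z : V) : (B.d x z : ℝ) ≤ B.d x y + B.d y z := by exact_mod_cast B.tri x y z

lemma rsymm (x y : V) : (B.d x y : ℝ) = B.d y x := by rw [B.symm]

lemma Ext.lip (hf : B.Ext f) (x y : V) : f x ≤ B.d x y + f y := by
  refine le_of_forall_pos_le_add fun ε hε => ?_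
  obtain ⟨z, hz⟩ := hf.2 x ε hε
  have := hf.1 y z; have := rtri (B := B) x y z
  linarith

lemma Ext.flip (hf : B.Ext f) (hg : B.Adm g) {c : ℝ} (h : ∀ x, g x - f x ≤ c) (x : V) :
    f x - g x ≤ c := by
  refine le_of_forall_pos_le_add fun ε hε => ?_
  obtain ⟨z, hz⟩ := hf.2 x ε hε
  have := hg x z; have := h z
  linarith

lemma ext_d (p : V) : B.Ext fun x => B.d p x :=
  ⟨fun x y => by have := rtri (B := B) x p y; have := rsymm (B := B) p x; linarith,
    fun x ε hε => ⟨p, by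
      have := rsymm (B := B) p x
      simp only [B.refl, Int.cast_zero]; linarith⟩⟩

lemma Ext.dis (hf : B.Ext f) : Dis f := by
  rcases isEmpty_or_nonempty V with h | ⟨⟨o⟩⟩
  · exact ⟨∅, Set.finite_empty, fun i => h.elim i⟩
  obtain ⟨n, hn⟩ := B.fin o ⌈f o⌉₊
  obtain ⟨s, hs⟩ := hn o
  refine ⟨_, Set.finite_range fun i => f (s i) - B.d (s i) o, fun x => ⟨B.d x o, ?_⟩⟩
  obtain ⟨i, hi⟩ := hs x
  exact ⟨i, (hi f hf (Nat.le_ceil _)).symm⟩

lemma Ext.gap (hf : B.Ext f) : ∃ γ > 0, ∀ x y, f x + f y < B.d x y + γ → f x + f y = B.d x y := by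
  obtain ⟨γ, h0, h⟩ := (((hf.dis.comp (Prod.fst : V × V → V)).add (hf.dis.comp Prod.snd)).sub
    (Dis.int fun p => B.d p.1 p.2)).gap 0
  refine ⟨γ, h0, fun x y hxy => ?_⟩
  have := hf.1 x y
  have := h (x, y) (abs_lt.2 ⟨by simp only; linarith, by simp only; linarith⟩)
  simp only at this
  linarith

lemma Ext.partner (hf : B.Ext f) (x : V) : ∃ y, f x + f y = B.d x y := by
  obtain ⟨γ, h0, h⟩ := hf.gap
  obtain ⟨y, hy⟩ := hf.2 x γ h0
  exact ⟨y, h x y hy⟩

variable (B) in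
/-- The injective hull. -/
@[ext] structure E : Type where
  fn : V → ℝ
  isExt : B.Ext fn

lemma bdd (f g : B.E) : BddAbove (Set.range fun x => f.1 x - g.1 x) := by
  rcases isEmpty_or_nonempty V with h | ⟨⟨o⟩⟩
  · simp
  refine ⟨f.1 o + g.1 o, ?_⟩
  rintro _ ⟨x, rfl⟩
  have := f.2.lip x o; have := g.2.1 x o
  simp only; linarith

variable [Nonempty V]

noncomputable instance : MetricSpace B.E where
  dist f g := ⨆ x, (f.1 x - g.1 x)
  dist_self f := by simp only [sub_self, ciSup_const]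
  dist_comm f g := le_antisymm (ciSup_le (f.2.flip g.2.1 (le_ciSup (bdd g f))))
    (ciSup_le (g.2.flip f.2.1 (le_ciSup (bdd f g))))
  dist_triangle f g h := ciSup_le fun x => by
    have := le_ciSup (bdd f g) x; have := le_ciSup (bdd g h) x; linarith
  eq_of_dist_eq_zero {f g} h := E.ext (funext fun x => by
    have h1 : ∀ x, f.1 x - g.1 x ≤ 0 := fun x => h ▸ le_ciSup (bdd f g) x
    have := h1 x; have := g.2.flip f.2.1 h1 x
    linarith)

lemma le_dist (f g : B.E) (x : V) : f.1 x - g.1 x ≤ dist f g := le_ciSup (bdd f g) x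

lemma le_dist' (f g : B.E) (x : V) : g.1 x - f.1 x ≤ dist f g := dist_comm f g ▸ le_dist g f x

lemma dist_le {f g : B.E} {c : ℝ} (h : ∀ x, f.1 x - g.1 x ≤ c) : dist f g ≤ c := ciSup_le h

lemma dist_att (f g : B.E) : ∃ x, f.1 x - g.1 x = dist f g := by
  obtain ⟨x, -, hx⟩ := (f.2.dis.sub g.2.dis).max (p := fun _ => True)
    ⟨Classical.arbitrary V, trivial⟩ fun x _ => le_dist f g x
  exact ⟨x, le_antisymm (le_dist f g x) (dist_le fun y => hx y trivial)⟩

variable (B) in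
/-- The canonical embedding. -/
def pt (p : V) : B.E := ⟨fun x => B.d p x, ext_d p⟩

lemma dist_pt (f : B.E) (p : V) : dist f (B.pt p) = f.1 p :=
  le_antisymm (dist_le fun x => by
    have := f.2.lip x p; have := rsymm (B := B) p x; simp only [pt]; linarith)
    (by simpa [pt, B.refl] using le_dist f (B.pt p) p)

lemma cont_ev (x : V) : Continuous fun f : B.E => f.1 x := by
  simp only [← dist_pt]; fun_prop

lemma ulim {ι : Type} (U : Ultrafilter ι) (F : ι → B.E) (o : V) (r : ℝ)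
    (h : ∀ᶠ i in U, (F i).1 o ≤ r) : ∃ f, Tendsto F U (𝓝 f) := by
  have pw : ∀ x, ∃ a, Tendsto (fun i => (F i).1 x) U (𝓝 a) := fun x => by
    obtain ⟨a, -, ha⟩ := (isCompact_Icc (a := (0 : ℝ)) (b := B.d x o + r)).ultrafilter_le_nhds
      (U.map fun i => (F i).1 x) (by
        rw [Ultrafilter.coe_map, Filter.le_principal_iff, Filter.mem_map]
        filter_upwards [h] with i hi
        exact ⟨(F i).2.1.nonneg x, by have := (F i).2.lip x o; linarith⟩)
    exact ⟨a, ha⟩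
  choose f hf using pw
  obtain ⟨n, hn⟩ := B.fin o ⌈r⌉₊
  obtain ⟨s, hs⟩ := hn o
  have un : ∀ ε > 0, ∀ᶠ i in U, ∀ x, |(F i).1 x - f x| < ε := fun ε hε => by
    have : ∀ᶠ i in U, ∀ j, |(F i).1 (s j) - f (s j)| < ε :=
      eventually_all.2 fun j => Metric.tendsto_nhds.1 (hf (s j)) ε hε
    filter_upwards [this, h] with i h1 h2 x
    obtain ⟨j, hj⟩ := hs x
    have e1 := hj _ (F i).2 (h2.trans (Nat.le_ceil r))
    have e2 : f x - B.d x o = f (s j) - B.d (s j) o :=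
      tendsto_nhds_unique ((hf x).sub_const _) (((hf (s j)).sub_const _).congr' (by
        filter_upwards [h] with i hi using (hj _ (F i).2 (hi.trans (Nat.le_ceil r))).symm))
    convert h1 j using 2
    linarith
  refine ⟨⟨f, fun x y => ge_of_tendsto' ((hf x).add (hf y)) fun i => (F i).2.1 x y,
    fun x ε hε => ?_⟩, Metric.tendsto_nhds.2 fun ε hε => ?_⟩
  · obtain ⟨i, hi⟩ := (un (ε / 2) (by linarith)).exists
    obtain ⟨y, hy⟩ := (F i).2.partner x
    have := abs_lt.1 (hi x); have := abs_lt.1 (hi y)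
    exact ⟨y, by linarith⟩
  · filter_upwards [un (ε / 2) (by linarith)] with i hi
    exact lt_of_le_of_lt (dist_le fun x => (abs_lt.1 (hi x)).2.le) (by linarith)

instance : ProperSpace B.E :=
  ⟨fun f r => isCompact_iff_ultrafilter_le_nhds.2 fun U hU => by
    obtain ⟨o⟩ := ‹Nonempty V›
    have h1 : ∀ᶠ g in U, g ∈ Metric.closedBall f r := Filter.le_principal_iff.1 hU
    obtain ⟨g, hg⟩ := ulim U id o (f.1 o + r) (by
      filter_upwards [h1] with g hg
      have := le_dist g f o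
      have := Metric.mem_closedBall.1 hg
      simp only [id]; linarith)
    exact ⟨g, Metric.isClosed_closedBall.mem_of_tendsto hg h1, hg⟩⟩

end Br

end Pool.Agent.Lib.MP_63c928_gt.SY
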