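import Pool.Agent.Lib.MP_63c928_gt.SY.H1

/-! A nonexpansive retraction onto the hull, conical midpoints and straight curves. -/

namespace Pool.Agent.Lib.MP_63c928_gt.SY

open Filter Topology

/-- Three point convexity on the unit interval. -/
def Cv (φ : ℝ → ℝ) : Prop := ∀ s t u, 0 ≤ s → s ≤ t → t ≤ u → u ≤ 1 →
  (u - s) * φ t ≤ (u - t) * φ s + (t - s) * φ u

lemma dconv {a : ℕ → ℝ} {n : ℕ} (h : ∀ i < n, 2 * a (i + 1) ≤ a i + a (i + 2)) {i j k : ℕ}
    (hij : i ≤ j) (hjk : j ≤ k) (hk : k ≤ n + 1) :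
    ((k : ℝ) - i) * a j ≤ (k - j) * a i + (j - i) * a k := by
  rcases hjk.eq_or_lt with rfl | hjk
  · simp
  have h1 : ∀ m l, l + m ≤ n → a (l + 1) - a l ≤ a (l + m + 1) - a (l + m) := fun m l => by
    induction m with
    | zero => simp
    | succ m ih =>
      intro hm
      have := ih (by omega); have := h (l + m) (by omega)
      simp only [← add_assoc, add_assoc (l + m) 1 1, one_add_one_eq_two]
      linarith
  have h2 : ∀ m l, l + m = j → a j - a l ≤ m * (a (j + 1) - a j) := fun m => by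
    induction m with
    | zero => rintro l rfl; simp
    | succ m ih =>
      intro l hl
      have := ih (l + 1) (by omega)
      have := h1 (m + 1) l (by omega)
      rw [hl] at this
      push_cast; linarith
  have h3 : ∀ m, j + m ≤ n + 1 → m * (a (j + 1) - a j) ≤ a (j + m) - a j := fun m => by
    induction m with
    | zero => simp
    | succ m ih =>
      intro hm
      have := ih (by omega)
      have := h1 m j (by omega)
      push_cast; rw [← add_assoc]; linarith
  obtain ⟨p, rfl⟩ := Nat.exists_eq_add_of_le hij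
  obtain ⟨q, rfl⟩ := Nat.exists_eq_add_of_le hjk.le
  have a1 := mul_le_mul_of_nonneg_left (h2 p i rfl) (Nat.cast_nonneg (α := ℝ) q)
  have a2 := mul_le_mul_of_nonneg_left (h3 q hk) (Nat.cast_nonneg (α := ℝ) p)
  push_cast
  nlinarith

namespace Br

variable {V : Type} {B : Br V} [Nonempty V] {f g : V → ℝ}

variable (B) in
/-- One step of Lang's retraction. -/
noncomputable def qq (f : V → ℝ) (x : V) : ℝ := (f x + ⨆ y, (B.d x y - f y)) / 2

omit [Nonempty V] in
lemma Adm.bdd (hf : B.Adm f) (x : V) : BddAbove (Set.range fun y => B.d x y - f y) :=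
  ⟨f x, by rintro _ ⟨y, rfl⟩; have := hf x y; simp only; linarith⟩

omit [Nonempty V] in
lemma Adm.qq (hf : B.Adm f) : B.Adm (B.qq f) := fun x y => by
  have := le_ciSup (hf.bdd x) y; have := le_ciSup (hf.bdd y) x; have := rsymm (B := B) x y
  unfold Br.qq; linarith

lemma Adm.qq_le (hf : B.Adm f) (x : V) : B.qq f x ≤ f x := by
  have : ⨆ y, (B.d x y - f y) ≤ f x := ciSup_le fun y => by have := hf x y; linarith
  unfold Br.qq; linarith

lemma qq_close (hf : B.Adm f) (hg : B.Adm g) {c : ℝ} (h : ∀ x, |f x - g x| ≤ c) (x : V) :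
    |B.qq f x - B.qq g x| ≤ c := by
  have h1 : ⨆ y, (B.d x y - f y) ≤ (⨆ y, (B.d x y - g y)) + c := ciSup_le fun y => by
    have := le_ciSup (hg.bdd x) y; have := abs_le.1 (h y); linarith
  have h2 : ⨆ y, (B.d x y - g y) ≤ (⨆ y, (B.d x y - f y)) + c := ciSup_le fun y => by
    have := le_ciSup (hf.bdd x) y; have := abs_le.1 (h y); linarith
  have := abs_le.1 (h x)
  unfold qq
  exact abs_le.2 ⟨by linarith, by linarith⟩

omit [Nonempty V] in
lemma Adm.it (hf : B.Adm f) : ∀ n, B.Adm (B.qq^[n] f)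
  | 0 => hf
  | n + 1 => by rw [Function.iterate_succ_apply']; exact (hf.it n).qq

lemma Adm.lim (hf : B.Adm f) (x : V) :
    Tendsto (fun n => B.qq^[n] f x) atTop (𝓝 (⨅ n, B.qq^[n] f x)) :=
  tendsto_atTop_ciInf (antitone_nat_of_succ_le fun n => by
    rw [Function.iterate_succ_apply']; exact (hf.it n).qq_le x)
    ⟨0, by rintro _ ⟨n, rfl⟩; exact (hf.it n).nonneg x⟩

omit [Nonempty V] in
lemma Adm.inf_le (hf : B.Adm f) (n : ℕ) (x : V) : ⨅ n, B.qq^[n] f x ≤ B.qq^[n] f x :=
  ciInf_le ⟨0, by rintro _ ⟨n, rfl⟩; exact (hf.it n).nonneg x⟩ n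

lemma Adm.ext_inf (hf : B.Adm f) : B.Ext fun x => ⨅ n, B.qq^[n] f x := by
  refine ⟨fun x y => ge_of_tendsto' ((hf.lim x).add (hf.lim y)) fun n => hf.it n x y,
    fun x ε hε => ?_⟩
  obtain ⟨n, hn⟩ := ((hf.lim x).eventually (gt_mem_nhds
    (show _ < (⨅ n, B.qq^[n] f x) + ε / 2 by linarith))).exists
  have h1 := hf.inf_le (n + 1) x
  rw [Function.iterate_succ_apply', Br.qq] at h1
  obtain ⟨y, hy⟩ := exists_lt_of_lt_ciSup (f := fun y => B.d x y - B.qq^[n] f y)
    (b := (⨆ y, (B.d x y - B.qq^[n] f y)) - ε / 2) (by linarith)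
  have := hf.inf_le n y
  exact ⟨y, by simp only; linarith⟩

variable (B) in
lemma mid : ∃ m : B.E → B.E → B.E, (∀ f g x, 2 * (m f g).1 x ≤ f.1 x + g.1 x) ∧
    ∀ f g f' g', 2 * dist (m f g) (m f' g') ≤ dist f f' + dist g g' := by
  have ha : ∀ f g : B.E, B.Adm fun x => (f.1 x + g.1 x) / 2 := fun f g x y => by
    have := f.2.1 x y; have := g.2.1 x y; linarith
  refine ⟨fun f g => ⟨_, (ha f g).ext_inf⟩, fun f g x => ?_, fun f g f' g' => ?_⟩
  · have := (ha f g).inf_le 0 x
    simp only [Function.iterate_zero, id] at this ⊢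
    linarith
  · have h : ∀ n x, |B.qq^[n] (fun x => (f.1 x + g.1 x) / 2) x -
        B.qq^[n] (fun x => (f'.1 x + g'.1 x) / 2) x| ≤ (dist f f' + dist g g') / 2 := fun n => by
      induction n with
      | zero =>
        intro x
        have := le_dist f f' x; have := le_dist' f f' x
        have := le_dist g g' x; have := le_dist' g g' x
        simp only [Function.iterate_zero, id]
        exact abs_le.2 ⟨by linarith, by linarith⟩
      | succ n ih =>
        rw [Function.iterate_succ_apply', Function.iterate_succ_apply']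
        exact qq_close ((ha f g).it n) ((ha f' g').it n) ih
    have := dist_le (f := ⟨_, (ha f g).ext_inf⟩) (g := ⟨_, (ha f' g').ext_inf⟩) fun x =>
      le_of_tendsto' (((ha f g).lim x).sub ((ha f' g').lim x)) fun n => (abs_le.1 (h n x)).2
    linarith

lemma chain (f g : B.E) (n : ℕ) : ∃ c : ℕ → B.E, c 0 = f ∧ c (n + 1) = g ∧
    ∀ i < n, ∀ x, 2 * (c (i + 1)).1 x ≤ (c i).1 x + (c (i + 2)).1 x := by
  obtain ⟨m, m1, m2⟩ := B.mid
  let T : (ℕ → B.E) → ℕ → B.E := fun c i =>
    Nat.casesOn i f fun i => if i < n then m (c i) (c (i + 2)) else g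
  obtain ⟨c, c0, c1, c2⟩ : ∃ c : ℕ → ℕ → B.E, (∀ k, c k 0 = f) ∧ (∀ k, c k (n + 1) = g) ∧
      ∀ k, ∀ i < n, c (k + 1) (i + 1) = m (c k i) (c k (i + 2)) :=
    ⟨fun k => T (T^[k] fun _ => f), fun k => rfl, fun k => by simp [T], fun k i hi => by
      simp only [Function.iterate_succ_apply']; simp [T, hi]⟩
  have hW : (0 : ℝ) < 1 + (n + 1) ^ 2 := by positivity
  obtain ⟨r, r0, r1, r2⟩ : ∃ r : ℝ, 0 ≤ r ∧ r < 1 ∧ (1 - r) * (1 + (n + 1) ^ 2) = 1 :=
    ⟨1 - 1 / (1 + (n + 1) ^ 2), by rw [sub_nonneg, div_le_one hW]; nlinarith [sq_nonneg ((n : ℝ) + 1)],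
      by have := one_div_pos.2 hW; linarith, by field_simp; ring⟩
  obtain ⟨D, D0, hD⟩ : ∃ D : ℝ, 0 ≤ D ∧ ∀ i ≤ n + 1, dist (c 0 i) (c 1 i) ≤ D :=
    ⟨∑ i ∈ Finset.range (n + 2), dist (c 0 i) (c 1 i), by positivity, fun i hi =>
      Finset.single_le_sum (f := fun i => dist (c 0 i) (c 1 i)) (fun _ _ => dist_nonneg)
        (Finset.mem_range.2 (by omega))⟩
  have hw : ∀ i ≤ n + 1, (0 : ℝ) ≤ i * (n + 1 - i) := fun i hi => by
    have : (i : ℝ) ≤ n + 1 := by exact_mod_cast hi
    exact mul_nonneg i.cast_nonneg (by linarith)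
  have key : ∀ k, ∀ i ≤ n + 1,
      dist (c k i) (c (k + 1) i) ≤ D * (1 + i * (n + 1 - i)) * r ^ k := fun k => by
    induction k with
    | zero =>
      intro i hi
      have := hD i hi; have := hw i hi
      simp only [zero_add, pow_zero]; nlinarith
    | succ k ih =>
      intro i hi
      have p0 : 0 ≤ D * r ^ k := by positivity
      rcases i with _ | i
      · rw [c0, c0, dist_self]; have := hw 0 hi; positivity
      rcases (Nat.le_of_succ_le_succ hi).eq_or_lt with rfl | h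
      · rw [c1, c1, dist_self]; have := hw _ hi; positivity
      have a1 := m2 (c k i) (c k (i + 2)) (c (k + 1) i) (c (k + 1) (i + 2))
      have a2 := ih i (by omega)
      have a3 := ih (i + 2) (by omega)
      have a4 : (1 - r) * (1 + ((i : ℝ) + 1) * (n + 1 - (i + 1))) ≤ 1 := by
        have : (i : ℝ) ≤ n := by exact_mod_cast h.le
        have := i.cast_nonneg (α := ℝ)
        exact le_of_le_of_eq (mul_le_mul_of_nonneg_left (by nlinarith) (by linarith)) r2
      have a5 := mul_le_mul_of_nonneg_left a4 p0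
      rw [c2 _ _ h, c2 _ _ h, pow_succ]
      push_cast at *
      nlinarith
  have : Nonempty B.E := ⟨f⟩
  choose! e he using fun i (hi : i ≤ n + 1) => cauchySeq_tendsto_of_complete
    (cauchySeq_of_le_geometric r _ r1 fun k => key k i hi)
  refine ⟨e, tendsto_nhds_unique (he 0 (by omega)) (by simp [c0]),
    tendsto_nhds_unique (he _ le_rfl) (by simp [c1]), fun i hi x => ?_⟩
  have t := fun j hj => ((cont_ev x).tendsto _).comp (he j hj)
  exact le_of_tendsto_of_tendsto'
    (((t (i + 1) (by omega)).comp (tendsto_add_atTop_nat 1)).const_mul 2)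
    ((t i (by omega)).add (t (i + 2) (by omega))) fun k => by
      simp only [Function.comp, c2 k i hi]; exact m1 _ _ x

/-- Straight curves. -/
def Str (γ : ℝ → B.E) : Prop := ∀ x, Cv fun t => (γ t).1 x

lemma exStr (f g : B.E) : ∃ γ, Str γ ∧ γ 0 = f ∧ γ 1 = g := by
  obtain ⟨o⟩ := ‹Nonempty V›
  choose c c0 c1 c2 using chain f g
  have fl : ∀ t : ℝ, t ≤ 1 → ∀ n : ℕ, ⌊t * (n + 1 : ℕ)⌋₊ ≤ n + 1 := fun t ht n =>
    Nat.floor_le_of_le (mul_le_of_le_one_left (Nat.cast_nonneg _) ht)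
  have : Nonempty B.E := ⟨f⟩
  choose! γ hγ using fun (t : ℝ) (ht : t ≤ 1) => ulim (hyperfilter ℕ)
    (fun n => c n ⌊t * (n + 1 : ℕ)⌋₊) o (f.1 o + g.1 o) (Eventually.of_forall fun n => by
      have h1 := dconv (a := fun i => (c n i).1 o) (fun i hi => c2 n i hi o) (Nat.zero_le _)
        (fl t ht n) le_rfl
      have h2 : (⌊t * (n + 1 : ℕ)⌋₊ : ℝ) ≤ (n + 1 : ℕ) := by exact_mod_cast fl t ht n
      have h3 := Nat.cast_nonneg (α := ℝ) ⌊t * (n + 1 : ℕ)⌋₊
      have := f.2.1.nonneg o; have := g.2.1.nonneg o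
      rw [c0, c1] at h1
      refine le_of_mul_le_mul_left ?_ (show (0 : ℝ) < (n + 1 : ℕ) by positivity)
      push_cast at *
      nlinarith)
  refine ⟨γ, fun x s t u h0 h1 h2 h3 => ?_, tendsto_nhds_unique (hγ 0 zero_le_one) (by simp [c0]),
    tendsto_nhds_unique (hγ 1 le_rfl) (by
      simp only [one_mul, Nat.floor_natCast, c1]; exact tendsto_const_nhds)⟩
  have l := fun t ht => ((cont_ev x).tendsto _).comp (hγ t ht)
  have q : ∀ t : ℝ, 0 ≤ t → Tendsto (fun n : ℕ => (⌊t * (n + 1 : ℕ)⌋₊ : ℝ) / (n + 1 : ℕ))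
      (hyperfilter ℕ) (𝓝 t) := fun t ht =>
    (((tendsto_nat_floor_mul_div_atTop ht).comp tendsto_natCast_atTop_atTop).comp
      (tendsto_add_atTop_nat 1)).mono_left Nat.hyperfilter_le_atTop
  have qs := q s h0
  have qt := q t (by linarith)
  have qu := q u (by linarith)
  refine le_of_tendsto_of_tendsto' ((qu.sub qs).mul (l t (by linarith)))
    (((qu.sub qt).mul (l s (by linarith))).add ((qt.sub qs).mul (l u h3))) fun n => ?_
  have hn : (0 : ℝ) < (n + 1 : ℕ) := by positivity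
  have := div_le_div_of_nonneg_right (dconv (a := fun i => (c n i).1 x) (fun i hi => c2 n i hi x)
    (Nat.floor_le_floor (mul_le_mul_of_nonneg_right h1 hn.le))
    (Nat.floor_le_floor (mul_le_mul_of_nonneg_right h2 hn.le)) (fl u h3 n)) hn.le
  simp only [Function.comp]
  convert this using 1 <;> ring

end Br

end Pool.Agent.Lib.MP_63c928_gt.SY
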