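import Pool.Agent.Lib.MP_63c928_gt.SY.H2

/-! Straight curves: geodesic, with convex mutual distance, and the potential is quasiconvex. -/

namespace Pool.Agent.Lib.MP_63c928_gt.SY

open Filter Topology

/-- Maximum principle for locally midpoint convex functions. -/
lemma mp {φ : ℝ → ℝ} {s u c : ℝ} (hc : ContinuousOn φ (Set.Icc s u))
    (h : ∀ t, s < t → t < u → c < φ t → ∃ δ > 0, ∀ ε > 0, ε < δ → s ≤ t - ε → t + ε ≤ u →
      2 * φ t ≤ φ (t - ε) + φ (t + ε)) (hs : φ s ≤ c) (hu : φ u ≤ c) :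
    ∀ t ∈ Set.Icc s u, φ t ≤ c := by
  intro t0 ht0
  by_contra hlt
  obtain ⟨m, hm, h1⟩ := isCompact_Icc.exists_isMaxOn ⟨t0, ht0⟩ hc
  have hK : IsCompact (Set.Icc s u ∩ φ ⁻¹' {φ m}) :=
    isCompact_Icc.of_isClosed_subset
      (hc.preimage_isClosed_of_isClosed isClosed_Icc isClosed_singleton) Set.inter_subset_left
  obtain ⟨t, ⟨⟨t1, t2⟩, t3⟩, t4⟩ := hK.exists_isLeast ⟨m, hm, rfl⟩
  have t3 : φ t = φ m := t3
  have h2 : φ t0 ≤ φ m := h1 ht0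
  have a1 : s < t := t1.lt_of_ne (by rintro rfl; linarith)
  have a2 : t < u := t2.lt_of_ne (by rintro rfl; linarith)
  obtain ⟨δ, d0, hδ⟩ := h t a1 a2 (by linarith)
  obtain ⟨ε, e0, e1, e2, e3⟩ : ∃ ε > 0, ε < δ ∧ ε ≤ t - s ∧ ε ≤ u - t :=
    ⟨min (δ / 2) (min (t - s) (u - t)), lt_min (by linarith) (lt_min (by linarith) (by linarith)),
      (min_le_left _ _).trans_lt (by linarith), (min_le_right _ _).trans (min_le_left _ _),
      (min_le_right _ _).trans (min_le_right _ _)⟩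
  have b1 : t - ε ∈ Set.Icc s u := ⟨by linarith, by linarith⟩
  have b2 : φ (t - ε) ≤ φ m := h1 b1
  have b3 : φ (t + ε) ≤ φ m := h1 (show t + ε ∈ Set.Icc s u from ⟨by linarith, by linarith⟩)
  have := hδ ε e0 e1 (by linarith) (by linarith)
  have := t4 ⟨b1, show φ (t - ε) = φ m by linarith⟩
  linarith

lemma Cv.mid {φ : ℝ → ℝ} (h : Cv φ) {t ε : ℝ} (e : 0 < ε) (h0 : 0 ≤ t - ε) (h1 : t + ε ≤ 1) :
    2 * φ t ≤ φ (t - ε) + φ (t + ε) := by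
  have := h (t - ε) t (t + ε) h0 (by linarith) (by linarith) h1
  nlinarith

lemma cv_of_loc {φ : ℝ → ℝ} (hc : ContinuousOn φ (Set.Icc 0 1))
    (h : ∀ t, 0 < t → t < 1 → ∃ δ > 0, ∀ ε > 0, ε < δ → 0 ≤ t - ε → t + ε ≤ 1 →
      2 * φ t ≤ φ (t - ε) + φ (t + ε)) : Cv φ := by
  intro s t u h0 h1 h2 h3
  have := mp (φ := fun t => (u - s) * φ t - ((u - t) * φ s + (t - s) * φ u)) (s := s) (u := u)
    (c := 0) (((hc.mono (Set.Icc_subset_Icc h0 h3)).const_smul (u - s)).sub (by fun_prop))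
    (fun t t1 t2 _ => by
      obtain ⟨δ, d0, hδ⟩ := h t (by linarith) (by linarith)
      refine ⟨δ, d0, fun ε e0 e1 e2 e3 => ?_⟩
      have := mul_le_mul_of_nonneg_left (hδ ε e0 e1 (by linarith) (by linarith))
        (show 0 ≤ u - s by linarith)
      linarith) (by simp) (by simp) t ⟨h1, h2⟩
  linarith

namespace Br

variable {V : Type} {B : Br V} [Nonempty V] {α β γ : ℝ → B.E}

lemma Str.lip (h : Str γ) {s t : ℝ} (h0 : 0 ≤ s) (h1 : s ≤ t) (h2 : t ≤ 1) :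
    dist (γ s) (γ t) ≤ (t - s) * dist (γ 0) (γ 1) := by
  have a : dist (γ 0) (γ t) ≤ t * dist (γ 0) (γ 1) := by
    rw [dist_comm]
    refine dist_le fun x => ?_
    have := h x 0 t 1 le_rfl (by linarith) h2 le_rfl
    have := mul_le_mul_of_nonneg_left (le_dist' (γ 0) (γ 1) x) (show 0 ≤ t by linarith)
    linarith
  rcases (h0.trans h1).eq_or_lt with rfl | ht
  · obtain rfl := le_antisymm h0 h1
    simp
  refine dist_le fun x => le_of_mul_le_mul_left ?_ ht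
  have := h x 0 s t le_rfl h0 h1 h2
  have := mul_le_mul_of_nonneg_left ((le_dist (γ 0) (γ t) x).trans a) (show 0 ≤ t - s by linarith)
  linarith

lemma Str.geo (h : Str γ) {s t : ℝ} (hs : s ∈ Set.Icc (0 : ℝ) 1) (ht : t ∈ Set.Icc (0 : ℝ) 1) :
    dist (γ s) (γ t) = |s - t| * dist (γ 0) (γ 1) := by
  wlog hst : s ≤ t generalizing s t
  · rw [dist_comm, abs_sub_comm]; exact this ht hs (le_of_not_ge hst)
  have := h.lip le_rfl hs.1 hs.2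
  have := h.lip hs.1 hst ht.2
  have := h.lip ht.1 ht.2 le_rfl
  have := dist_triangle4 (γ 0) (γ s) (γ t) (γ 1)
  rw [abs_of_nonpos (by linarith)]
  linarith

lemma Str.cont (h : Str γ) : ContinuousOn γ (Set.Icc 0 1) :=
  (LipschitzOnWith.of_dist_le_mul (K := nndist (γ 0) (γ 1)) fun s hs t ht => by
    rw [h.geo hs ht, mul_comm]; rfl).continuousOn

lemma Str.near (h : Str γ) {t : ℝ} (h0 : 0 < t) (h1 : t < 1) {η : ℝ} (e : 0 < η) :
    ∃ δ > 0, ∀ ε > 0, ε < δ → dist (γ (t - ε)) (γ t) < η ∧ dist (γ (t + ε)) (γ t) < η := by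
  obtain ⟨δ, d0, hδ⟩ := Metric.continuousAt_iff.1 (h.cont.continuousAt (Icc_mem_nhds h0 h1)) η e
  exact ⟨δ, d0, fun ε e0 e1 => ⟨hδ (by simpa [abs_of_pos e0]), hδ (by simpa [abs_of_pos e0])⟩⟩

lemma tight (f : B.E) : ∃ η > 0, ∀ g : B.E, dist g f < η → ∀ x, ∃ y,
    g.1 x + g.1 y = B.d x y ∧ f.1 x + f.1 y = B.d x y := by
  obtain ⟨γ, h0, h⟩ := f.2.gap
  refine ⟨γ / 2, by linarith, fun g hg x => ?_⟩
  obtain ⟨y, hy⟩ := g.2.partner x
  have := le_dist' g f x; have := le_dist' g f y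
  exact ⟨y, hy, h x y (by linarith)⟩

lemma loc_dist {a a1 a2 b b1 b2 : B.E} (ha : ∀ x, 2 * a.1 x ≤ a1.1 x + a2.1 x)
    (hb : ∀ x, 2 * b.1 x ≤ b1.1 x + b2.1 x)
    (ta : ∀ x, ∃ y, a2.1 x + a2.1 y = B.d x y ∧ a.1 x + a.1 y = B.d x y)
    (tb : ∀ x, ∃ y, b1.1 x + b1.1 y = B.d x y ∧ b.1 x + b.1 y = B.d x y) :
    2 * dist a b ≤ dist a1 b1 + dist a2 b2 := by
  obtain ⟨z, hz, hm⟩ := (a2.2.dis.sub a.2.dis).max (dist_att a b) fun x _ => le_dist a2 a x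
  obtain ⟨y, y1, y2⟩ := ta z
  obtain ⟨w, w1, w2⟩ := tb y
  have := b.2.1 z y; have := a.2.1 y w; have := a2.2.1 y w
  have := le_dist' a b y; have := le_dist a b w
  have := hm w (by linarith)
  have := le_dist' a2 b2 y; have := le_dist a1 b1 w
  have := ha w; have := hb y
  linarith

lemma Str.cv (ha : Str α) (hb : Str β) : Cv fun t => dist (α t) (β t) := by
  refine cv_of_loc (continuous_dist.comp_continuousOn (ha.cont.prodMk hb.cont)) fun t h0 h1 => ?_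
  obtain ⟨η, e0, he⟩ := tight (α t)
  obtain ⟨η', e0', he'⟩ := tight (β t)
  obtain ⟨δ, d0, hδ⟩ := ha.near h0 h1 e0
  obtain ⟨δ', d0', hδ'⟩ := hb.near h0 h1 e0'
  exact ⟨min δ δ', lt_min d0 d0', fun ε e1 e2 e3 e4 => loc_dist (fun x => (ha x).mid e1 e3 e4)
    (fun x => (hb x).mid e1 e3 e4) (he _ (hδ ε e1 (lt_min_iff.1 e2).1).2)
    (he' _ (hδ' ε e1 (lt_min_iff.1 e2).2).1)⟩

lemma Str.uniq (ha : Str α) (hb : Str β) (h0 : α 0 = β 0) (h1 : α 1 = β 1) {t : ℝ}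
    (ht : t ∈ Set.Icc (0 : ℝ) 1) : α t = β t := by
  have := ha.cv hb 0 t 1 le_rfl ht.1 ht.2 le_rfl
  simp only [h0, h1, dist_self] at this
  exact dist_le_zero.1 (by linarith)

/-- The values of flat triples. -/
def vals (f : B.E) : Set ℝ := insert 20 {v | ∃ x a b c, B.LC x a b c ∧ B.val f.1 x a b c = v}

/-- The potential. -/
noncomputable def Φ (f : B.E) : ℝ := sSup (vals f)

lemma bdd_vals (f : B.E) : BddAbove (vals f) := by
  obtain ⟨o⟩ := ‹Nonempty V›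
  refine BddAbove.insert _ ⟨3 * f.1 o + 12, ?_⟩
  rintro _ ⟨x, a, b, c, h, rfl⟩
  exact val_le f.2.1 h o

lemma le_Φ (f : B.E) : 20 ≤ Φ f := le_csSup (bdd_vals f) (Or.inl rfl)

lemma val_le_Φ (f : B.E) {x a b c : V} (h : B.LC x a b c) : B.val f.1 x a b c ≤ Φ f :=
  le_csSup (bdd_vals f) (Or.inr ⟨x, a, b, c, h, rfl⟩)

omit [Nonempty V] in
lemma Φ_le {f : B.E} {M : ℝ} (h : 20 ≤ M)
    (h' : ∀ x a b c, B.LC x a b c → B.val f.1 x a b c ≤ M) : Φ f ≤ M :=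
  csSup_le ⟨20, Or.inl rfl⟩ (by rintro _ (rfl | ⟨x, a, b, c, h, rfl⟩); exacts [h, h' _ _ _ _ h])

lemma Φ_lip (f g : B.E) : Φ f ≤ Φ g + 3 * dist f g :=
  Φ_le (by have := le_Φ g; have := dist_nonneg (x := f) (y := g); linarith) fun x a b c h => by
    have := val_le_Φ g h
    have := le_dist' f g a; have := le_dist' f g b; have := le_dist' f g c
    unfold val at *
    linarith

lemma cont_Φ : Continuous (Φ (B := B)) :=
  (LipschitzWith.of_le_add_mul 3 fun f g => by simpa using Φ_lip f g).continuous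

lemma Φ_att {f : B.E} (h : 20 < Φ f) : ∃ x a b c, B.LC x a b c ∧ B.val f.1 x a b c = Φ f := by
  have hd : Dis fun p : V × V × V × V => B.val f.1 p.1 p.2.1 p.2.2.1 p.2.2.2 :=
    (((Dis.int _).sub (f.2.dis.comp _)).sub (f.2.dis.comp _)).sub (f.2.dis.comp _)
  obtain ⟨γ, g0, hγ⟩ := hd.gap (Φ f)
  obtain ⟨_, rfl | ⟨x, a, b, c, h1, rfl⟩, h2⟩ := exists_lt_of_lt_csSup (s := vals f)
    ⟨20, Or.inl rfl⟩ (max_lt h (show Φ f - γ < Φ f by linarith))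
  · exact absurd (max_lt_iff.1 h2).1 (lt_irrefl _)
  · have := val_le_Φ f h1
    have := (max_lt_iff.1 h2).2
    exact ⟨x, a, b, c, h1, hγ (x, a, b, c) (abs_lt.2 ⟨by linarith, by linarith⟩)⟩

lemma loc_Φ {f g h : B.E} (h20 : 20 < Φ f) (hm : ∀ x, 2 * f.1 x ≤ g.1 x + h.1 x)
    (tg : ∀ x, ∃ y, g.1 x + g.1 y = B.d x y ∧ f.1 x + f.1 y = B.d x y)
    (th : ∀ x, ∃ y, h.1 x + h.1 y = B.d x y ∧ f.1 x + f.1 y = B.d x y) :
    2 * Φ f ≤ Φ g + Φ h := by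
  let P : V → V → V → Prop := fun a b c => ∃ x, B.LC x a b c ∧ B.val f.1 x a b c = Φ f
  have s12 : ∀ {a b c}, P a b c → P b a c := fun ⟨x, h1, h2⟩ =>
    ⟨x, h1.s12, by unfold val at *; push_cast at *; linarith⟩
  have s23 : ∀ {a b c}, P a b c → P a c b := fun ⟨x, h1, h2⟩ =>
    ⟨x, h1.s23, by unfold val at *; push_cast at *; linarith⟩
  have step : ∀ {a b c}, P a b c → ∃ r u, P r b c ∧ P u b c ∧
      (f.1 r - g.1 r) + (f.1 u - h.1 u) ≥ 0 := fun ⟨x, h1, h2⟩ => by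
    obtain ⟨z, hz⟩ := sr f.2.1 (fun _ _ _ _ => val_le_Φ f) h20.le h1 h2
    obtain ⟨r, r1, r2⟩ := tg z
    obtain ⟨u, u1, u2⟩ := th z
    have := hm z
    exact ⟨r, u, ⟨z, hz r r2⟩, ⟨z, hz u u2⟩, by linarith⟩
  have mx := fun {p : V → Prop} (h0 : ∃ i, p i) =>
    (f.2.dis.sub g.2.dis).max h0 fun x _ => le_dist f g x
  obtain ⟨x, a, b, c, h1⟩ := Φ_att h20
  obtain ⟨v1, ⟨b, c, h2⟩, m1⟩ := mx (p := fun a => ∃ b c, P a b c) ⟨a, b, c, x, h1⟩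
  obtain ⟨v2, ⟨c, h3⟩, m2⟩ := mx (p := fun b => ∃ c, P v1 b c) ⟨b, c, h2⟩
  obtain ⟨v3, h4, m3⟩ := mx (p := fun c => P v1 v2 c) ⟨c, h3⟩
  obtain ⟨r3, u3, a1, a2, a3⟩ := step (s12 (s23 h4))
  have := m3 r3 (s23 (s12 a1))
  obtain ⟨r2, u2, b1, b2, b3⟩ := step (s12 (s23 (s12 a2)))
  have := m2 r2 ⟨_, s12 b1⟩
  obtain ⟨r1, u1, c1, ⟨y, c2, c3⟩, c4⟩ := step (s12 b2)
  have := m1 r1 ⟨_, _, c1⟩
  obtain ⟨x, h5, h6⟩ := h4
  have := val_le_Φ g h5; have := val_le_Φ h c2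
  unfold val at *
  linarith

lemma Str.Φ_le (h : Str γ) (h0 : Φ (γ 0) ≤ 20) (h1 : Φ (γ 1) ≤ 20) :
    ∀ t ∈ Set.Icc (0 : ℝ) 1, Φ (γ t) ≤ 20 :=
  mp (cont_Φ.comp_continuousOn h.cont) (fun t t0 t1 h20 => by
    obtain ⟨η, e0, he⟩ := tight (γ t)
    obtain ⟨δ, d0, hδ⟩ := h.near t0 t1 e0
    exact ⟨δ, d0, fun ε e1 e2 e3 e4 => loc_Φ h20 (fun x => (h x).mid e1 e3 e4)
      (he _ (hδ ε e1 e2).1) (he _ (hδ ε e1 e2).2)⟩) h0 h1

end Br

end Pool.Agent.Lib.MP_63c928_gt.SY
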